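import Pool.Agent.H80.SP.Inst
set_option autoImplicit false

/-!
# Bounded nondegenerate polyhedra
-/

namespace Pool.Agent.H80.SP

open Finset Matrix Real
open Pool.Agent.H80.RE (e2)

variable {m d : ℕ} {A : Fin m → Fin d → ℝ} {b : Fin m → ℝ}

theorem exists_dir (A : Fin m → Fin d → ℝ) (s : Finset (Fin m)) (hs : s.card < d) :
    ∃ e : Fin d → ℝ, e ≠ 0 ∧ ∀ j ∈ s, A j ⬝ᵥ e = 0 := by
  set L : (Fin d → ℝ) →ₗ[ℝ] ({x // x ∈ s} → ℝ) :=
    Matrix.mulVecLin (Matrix.of fun (j : {x // x ∈ s}) => A j.1) with hL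
  have h1 : LinearMap.ker L ≠ ⊥ := by
    apply LinearMap.ker_ne_bot_of_finrank_lt
    simpa using hs
  obtain ⟨e, he, hne⟩ := Submodule.exists_mem_ne_zero_of_ne_bot h1
  refine ⟨e, hne, fun j hj => ?_⟩
  have h2 := congrFun (LinearMap.mem_ker.1 he) ⟨j, hj⟩
  simpa [hL, Matrix.mulVec] using h2

theorem extreme_of_kernel {w : Fin d → ℝ} (hw : w ∈ Poly A b)
    (hk : ∀ δ : Fin d → ℝ, (∀ j ∈ tight A b w, A j ⬝ᵥ δ = 0) → δ = 0) :
    w ∈ (Poly A b).extremePoints ℝ := by
  refine ⟨hw, fun x hx y hy ⟨s, t, hs, ht, hst, he⟩ => ?_⟩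
  have h0 : x - w = 0 := by
    refine hk _ fun j hj => ?_
    have h1 := hx j
    have h2 := hy j
    have h3 : s * (A j ⬝ᵥ x) + t * (A j ⬝ᵥ y) = b j := by
      rw [← mem_tight.1 hj, ← he, dotProduct_add, dotProduct_smul, dotProduct_smul, smul_eq_mul,
        smul_eq_mul]
    have h4 : s * (b j - A j ⬝ᵥ x) + t * (b j - A j ⬝ᵥ y) = 0 := by
      have : s * (b j - A j ⬝ᵥ x) + t * (b j - A j ⬝ᵥ y) =
        (s + t) * b j - (s * (A j ⬝ᵥ x) + t * (A j ⬝ᵥ y)) := by ring
      rw [this, hst, h3]; ring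
    have h5 : 0 ≤ s * (b j - A j ⬝ᵥ x) := mul_nonneg hs.le (sub_nonneg.2 h1)
    have h6 : 0 ≤ t * (b j - A j ⬝ᵥ y) := mul_nonneg ht.le (sub_nonneg.2 h2)
    have h7 : s * (b j - A j ⬝ᵥ x) = 0 := by linarith
    rcases mul_eq_zero.1 h7 with h8 | h8
    · exact absurd h8 hs.ne'
    · rw [dotProduct_sub, mem_tight.1 hj]; linarith
  exact sub_eq_zero.1 h0

/-- every vertex of a bounded nondegenerate polyhedron has `d` neighbours -/
theorem exists_nbr (hbd : Bornology.IsBounded (Poly A b)) (hnd : Nondegenerate A b)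
    {v : Fin d → ℝ} (hv : v ∈ vertices A b) {i : Fin m} (hi : i ∈ tight A b v) :
    ∃ w ∈ vertices A b, w ≠ v ∧ (tight A b v).erase i ⊆ tight A b w := by
  have hv' := mem_vertices.1 hv
  obtain ⟨e, hAe, he0⟩ : ∃ e : Fin d → ℝ, A i ⬝ᵥ e < 0 ∧
      ∀ j ∈ (tight A b v).erase i, A j ⬝ᵥ e = 0 := by
    obtain ⟨e, hne, he⟩ := exists_dir A ((tight A b v).erase i) (by
      have h1 := card_erase_lt_of_mem hi
      have h2 := hnd v hv
      omega)
    have h1 : A i ⬝ᵥ e ≠ 0 := by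
      intro h
      apply hne
      refine eq_zero_of_tight hv' fun j hj => ?_
      by_cases hji : j = i
      · rw [hji]; exact h
      · exact he j (mem_erase.2 ⟨hji, hj⟩)
    rcases lt_or_gt_of_ne h1 with h2 | h2
    · exact ⟨e, h2, he⟩
    · refine ⟨-e, by rw [dotProduct_neg]; linarith, fun j hj => ?_⟩
      rw [dotProduct_neg, he j hj, neg_zero]
  have hene : e ≠ 0 := by
    rintro rfl
    simp at hAe
  have htv : ∀ j ∈ tight A b v, A j ⬝ᵥ e ≤ 0 := by
    intro j hj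
    by_cases hji : j = i
    · rw [hji]; exact hAe.le
    · exact (he0 j (mem_erase.2 ⟨hji, hj⟩)).le
  set J := (univ : Finset (Fin m)).filter fun j => 0 < A j ⬝ᵥ e with hJ
  have hJne : J.Nonempty := by
    by_contra hc
    rw [not_nonempty_iff_eq_empty] at hc
    have h1 : ∀ j, A j ⬝ᵥ e ≤ 0 := by
      intro j
      by_contra h
      have : j ∈ J := by rw [hJ, mem_filter]; exact ⟨mem_univ _, not_le.1 h⟩
      rw [hc] at this
      exact absurd this (notMem_empty _)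
    obtain ⟨R, hR⟩ := hbd.exists_norm_le
    have he' : 0 < ‖e‖ := norm_pos_iff.2 hene
    have hR0 : 0 ≤ R := (norm_nonneg v).trans (hR v hv'.1)
    have h2 : v + ((R + ‖v‖ + 1) / ‖e‖) • e ∈ Poly A b := by
      intro j
      rw [dotProduct_add, dotProduct_smul, smul_eq_mul]
      have h3 := hv'.1 j
      have h4 : (R + ‖v‖ + 1) / ‖e‖ * (A j ⬝ᵥ e) ≤ 0 :=
        mul_nonpos_of_nonneg_of_nonpos (by positivity) (h1 j)
      linarith
    have h3 := hR _ h2
    have h4 : ‖((R + ‖v‖ + 1) / ‖e‖) • e‖ = R + ‖v‖ + 1 := by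
      rw [norm_smul, Real.norm_of_nonneg (by positivity)]
      field_simp
    have h5 := norm_sub_le (v + ((R + ‖v‖ + 1) / ‖e‖) • e) v
    rw [add_sub_cancel_left, h4] at h5
    linarith
  obtain ⟨j0, hj0, hmin⟩ := exists_min_image J (fun j => (b j - A j ⬝ᵥ v) / (A j ⬝ᵥ e)) hJne
  have hj0' : 0 < A j0 ⬝ᵥ e := (mem_filter.1 hj0).2
  set s := (b j0 - A j0 ⬝ᵥ v) / (A j0 ⬝ᵥ e) with hs
  have hs0 : 0 < s := by
    apply div_pos _ hj0'
    have h1 := hv'.1 j0
    rcases h1.eq_or_lt with h2 | h2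
    · exact absurd (htv j0 (mem_tight.2 h2)) (not_le.2 hj0')
    · linarith
  have hwP : v + s • e ∈ Poly A b := by
    intro j
    rw [dotProduct_add, dotProduct_smul, smul_eq_mul]
    have h1 := hv'.1 j
    rcases le_or_gt (A j ⬝ᵥ e) 0 with h2 | h2
    · have := mul_nonpos_of_nonneg_of_nonpos hs0.le h2
      linarith
    · have h3 := hmin j (by rw [hJ, mem_filter]; exact ⟨mem_univ _, h2⟩)
      rw [le_div_iff₀ h2] at h3
      linarith
  have hsub : (tight A b v).erase i ⊆ tight A b (v + s • e) := by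
    intro j hj
    rw [mem_tight, dotProduct_add, dotProduct_smul, he0 j hj, smul_zero, add_zero]
    exact mem_tight.1 (mem_of_mem_erase hj)
  have htj0 : j0 ∈ tight A b (v + s • e) := by
    rw [mem_tight, dotProduct_add, dotProduct_smul, smul_eq_mul, hs, div_mul_cancel₀ _ hj0'.ne']
    ring
  refine ⟨v + s • e, mem_vertices.2 (extreme_of_kernel hwP fun δ hδ => ?_), ?_, hsub⟩
  · have h1 : (A i ⬝ᵥ e) • δ - (A i ⬝ᵥ δ) • e = 0 := by
      refine eq_zero_of_tight hv' fun j hj => ?_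
      rw [dotProduct_sub, dotProduct_smul, dotProduct_smul, smul_eq_mul, smul_eq_mul]
      by_cases hji : j = i
      · rw [hji]; ring
      · have hj' := mem_erase.2 ⟨hji, hj⟩
        rw [he0 j hj', hδ j (hsub hj')]; ring
    have h2 : (A i ⬝ᵥ δ) * (A j0 ⬝ᵥ e) = 0 := by
      have h3 := congrArg (fun x => A j0 ⬝ᵥ x) h1
      simp only [dotProduct_sub, dotProduct_smul, smul_eq_mul, dotProduct_zero] at h3
      rw [hδ j0 htj0] at h3
      linarith
    have h3 : A i ⬝ᵥ δ = 0 := by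
      rcases mul_eq_zero.1 h2 with h | h
      · exact h
      · exact absurd h hj0'.ne'
    rw [h3, zero_smul, sub_zero] at h1
    rcases smul_eq_zero.1 h1 with h | h
    · exact absurd h hAe.ne
    · exact h
  · intro h
    have h1 : s • e = 0 := by simpa using h
    rcases smul_eq_zero.1 h1 with h | h
    · exact absurd h hs0.ne'
    · exact hene h

end Pool.Agent.H80.SP
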