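import Pool.Agent.H80.SP.Bdd
set_option autoImplicit false

/-!
# Abstract objective functions on bounded nondegenerate polyhedra

For an abstract objective function the sum of the bound is at most
`((z + (1 - z) * k ^ (- 1 / (k - 1))) ^ d` times the number of the vertices.
-/

namespace Pool.Agent.H80.SP

open Finset Matrix Real
open Pool.Agent.H80.RE (e2)

variable {m d : ℕ} {A : Fin m → Fin d → ℝ} {b : Fin m → ℝ}

/-- the set of the tight constraints is not contained in the one of another vertex -/
theorem notMem_of_erase (hnd : Nondegenerate A b) {v w : Fin d → ℝ} (hv : v ∈ vertices A b)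
    (hw : w ∈ vertices A b) (hne : w ≠ v) {i : Fin m}
    (h : (tight A b v).erase i ⊆ tight A b w) : i ∉ tight A b w := by
  intro hi
  apply hne
  have h1 : tight A b v ⊆ tight A b w := by
    intro j hj
    by_cases hji : j = i
    · rw [hji]; exact hi
    · exact h (mem_erase.2 ⟨hji, hj⟩)
  have h2 := eq_of_subset_of_card_le h1 (by rw [hnd v hv, hnd w hw])
  exact (tight_injOn A b (mem_vertices.1 hv) (mem_vertices.1 hw) h2).symm

theorem adj_of_erase (hnd : Nondegenerate A b) {v w : Fin d → ℝ} (hv : v ∈ vertices A b)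
    (hne : w ≠ v) {i : Fin m} (hi : i ∈ tight A b v)
    (h : (tight A b v).erase i ⊆ tight A b w) : Adjacent A b v w := by
  refine ⟨hne.symm, ?_⟩
  have h1 : (tight A b v).erase i ⊆ tight A b v ∩ tight A b w :=
    subset_inter (erase_subset _ _) h
  have h2 := card_le_card h1
  rw [card_erase_of_mem hi, hnd v hv] at h2
  omega

/-- linear functions without ties on the edges are abstract objective functions -/
theorem oneMax_linear (hbd : Bornology.IsBounded (Poly A b)) (hnd : Nondegenerate A b)
    (c : Fin d → ℝ) (hc : ∀ v ∈ vertices A b, ∀ w ∈ vertices A b, Adjacent A b v w →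
      c ⬝ᵥ v ≠ c ⬝ᵥ w) : OneMax A b fun x => c ⬝ᵥ x := by
  -- a local maximum of a face is better than all other vertices of the face
  have key : ∀ K : Finset (Fin m), ∀ v ∈ vertices A b, ∀ w ∈ vertices A b, K ⊆ tight A b v →
      K ⊆ tight A b w → (∀ u ∈ improving A b (fun x => c ⬝ᵥ x) v, ¬ K ⊆ tight A b u) →
      w ≠ v → c ⬝ᵥ w < c ⬝ᵥ v := by
    intro K v hv w hw hKv hKw hmax hne
    have hu : ∀ i : Fin m, ∃ u : Fin d → ℝ, i ∈ tight A b v → (u ∈ vertices A b ∧ u ≠ v ∧
        (tight A b v).erase i ⊆ tight A b u) := by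
      intro i
      by_cases hi : i ∈ tight A b v
      · obtain ⟨u, h1, h2, h3⟩ := exists_nbr hbd hnd hv hi
        exact ⟨u, fun _ => ⟨h1, h2, h3⟩⟩
      · exact ⟨0, fun h => absurd h hi⟩
    choose u hu using hu
    -- the directions of the edges
    have hAi : ∀ i ∈ tight A b v, A i ⬝ᵥ (u i - v) < 0 := by
      intro i hi
      have h1 := (mem_vertices.1 (hu i hi).1).1 i
      have h2 := notMem_of_erase hnd hv (hu i hi).1 (hu i hi).2.1 (hu i hi).2.2
      rw [mem_tight] at h2
      have h3 : A i ⬝ᵥ u i < b i := lt_of_le_of_ne h1 h2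
      rw [dotProduct_sub, mem_tight.1 hi]
      linarith
    have hAj : ∀ i ∈ tight A b v, ∀ j ∈ (tight A b v).erase i, A j ⬝ᵥ (u i - v) = 0 := by
      intro i hi j hj
      rw [dotProduct_sub, mem_tight.1 ((hu i hi).2.2 hj), mem_tight.1 (mem_of_mem_erase hj),
        sub_self]
    set lam : Fin m → ℝ := fun i => (A i ⬝ᵥ (w - v)) / (A i ⬝ᵥ (u i - v)) with hlam
    have hw0 : ∀ i ∈ tight A b v, A i ⬝ᵥ (w - v) ≤ 0 := by
      intro i hi
      have h1 := (mem_vertices.1 hw).1 i
      rw [dotProduct_sub, mem_tight.1 hi]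
      linarith
    have hlam0 : ∀ i ∈ tight A b v, 0 ≤ lam i := fun i hi =>
      div_nonneg_of_nonpos (hw0 i hi) (hAi i hi).le
    have hrep : w - v = ∑ i ∈ tight A b v, lam i • (u i - v) := by
      have h0 : (w - v) - ∑ i ∈ tight A b v, lam i • (u i - v) = 0 := by
        refine eq_zero_of_tight (mem_vertices.1 hv) fun j hj => ?_
        rw [dotProduct_sub, dotProduct_sum, sum_eq_single j]
        · rw [dotProduct_smul, smul_eq_mul, hlam]
          simp only
          rw [div_mul_cancel₀ _ (hAi j hj).ne, sub_self]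
        · intro i hi hij
          rw [dotProduct_smul, hAj i hi j (mem_erase.2 ⟨hij.symm, hj⟩), smul_zero]
        · intro h; exact absurd hj h
      exact sub_eq_zero.1 h0
    have hcu : ∀ i ∈ tight A b v, i ∉ K → c ⬝ᵥ (u i - v) < 0 := by
      intro i hi hiK
      obtain ⟨h1, h2, h3⟩ := hu i hi
      have hadj := adj_of_erase hnd hv h2 hi h3
      have h4 : ¬ c ⬝ᵥ v < c ⬝ᵥ u i := by
        intro h5
        apply hmax (u i) (mem_improving.2 ⟨h1, hadj, h5⟩)
        intro j hj
        exact h3 (mem_erase.2 ⟨fun e => hiK (e ▸ hj), hKv hj⟩)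
      have h5 := hc v hv (u i) h1 hadj
      have h6 : c ⬝ᵥ u i < c ⬝ᵥ v := lt_of_le_of_ne (not_lt.1 h4) h5.symm
      rw [dotProduct_sub]
      linarith
    have hlamK : ∀ i ∈ tight A b v, i ∈ K → lam i = 0 := by
      intro i hi hiK
      have h1 : A i ⬝ᵥ (w - v) = 0 := by
        rw [dotProduct_sub, mem_tight.1 (hKw hiK), mem_tight.1 hi, sub_self]
      rw [hlam]
      simp only
      rw [h1, zero_div]
    have hterm : ∀ i ∈ tight A b v, lam i * (c ⬝ᵥ (u i - v)) ≤ 0 := by
      intro i hi
      by_cases hiK : i ∈ K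
      · rw [hlamK i hi hiK, zero_mul]
      · exact mul_nonpos_of_nonneg_of_nonpos (hlam0 i hi) (hcu i hi hiK).le
    have hcw : c ⬝ᵥ (w - v) = ∑ i ∈ tight A b v, lam i * (c ⬝ᵥ (u i - v)) := by
      conv_lhs => rw [hrep]
      rw [dotProduct_sum]
      exact sum_congr rfl fun i _ => by rw [dotProduct_smul, smul_eq_mul]
    have h1 : c ⬝ᵥ (w - v) < 0 := by
      by_contra hcon
      have h2 : ∑ i ∈ tight A b v, lam i * (c ⬝ᵥ (u i - v)) = 0 := by
        have := sum_nonpos hterm
        linarith [not_lt.1 hcon]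
      have h3 := (sum_eq_zero_iff_of_nonpos hterm).1 h2
      have h4 : ∀ i ∈ tight A b v, lam i = 0 := by
        intro i hi
        by_cases hiK : i ∈ K
        · exact hlamK i hi hiK
        · rcases mul_eq_zero.1 (h3 i hi) with h | h
          · exact h
          · exact absurd h (hcu i hi hiK).ne
      apply hne
      have h5 : w - v = 0 := by
        rw [hrep]
        exact sum_eq_zero fun i hi => by rw [h4 i hi, zero_smul]
      exact sub_eq_zero.1 h5
    rw [dotProduct_sub] at h1
    linarith
  intro K v hv w hw hKv hKw hmv hmw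
  by_contra hne
  have h1 := key K v hv w hw hKv hKw hmv (Ne.symm hne)
  have h2 := key K w hw v hv hKw hKv hmw hne
  linarith

/-- a face of dimension `j` has at least `k ^ (j / (k - 1))` vertices -/
theorem card_face (hbd : Bornology.IsBounded (Poly A b)) (hnd : Nondegenerate A b) {k : ℕ}
    (hk : 2 ≤ k) (hcl : CliqueLE A b k) (v : VV A b) {K : Finset (Fin m)}
    (hK : K ⊆ tt A b v) :
    exp (log k / ((k : ℝ) - 1)) ^ (d - K.card) ≤
      ((univ : Finset (VV A b)).filter fun w => K ⊆ tt A b w).card := by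
  classical
  obtain ⟨q, hq⟩ : ∃ q, k = q + 2 := ⟨k - 2, by omega⟩
  have hkr : (k : ℝ) = (q : ℝ) + 2 := by rw [hq]; push_cast; ring
  have hq0 : (0 : ℝ) ≤ q := Nat.cast_nonneg q
  have hl2 : 0 < log 2 := Real.log_pos (by norm_num)
  set S := (univ : Finset (VV A b)).filter fun w => K ⊆ tt A b w with hS
  have hSpos : 0 < S.card := card_pos.2 ⟨v, by rw [hS, mem_filter]; exact ⟨mem_univ _, hK⟩⟩
  have hSr : (0 : ℝ) < S.card := by exact_mod_cast hSpos
  set g : VV A b → ℝ := fun w => if w ∈ S then 1 else 0 with hg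
  have hg0 : ∀ w, 0 ≤ g w := by
    intro w
    simp only [hg]
    split_ifs <;> norm_num
  have h1 := ent_sharp (inc_tt hnd) q (fun s hs => hq ▸ clique_tt hcl s hs) hg0
  have hdeg : ∀ x ∈ S, ((d - K.card : ℕ) : ℝ) * (2 * log 2) ≤
      ∑ w, FF (tt A b) d g x w := by
    intro x hx
    have hxK : K ⊆ tt A b x := (mem_filter.1 hx).2
    have hgx : g x = 1 := by simp [hg, hx]
    have e1 : ∀ w ∈ S, FF (tt A b) d g x w =
        if Adj (tt A b) d x w then 2 * log 2 else 0 := by
      intro w hw
      have hgw : g w = 1 := by simp [hg, hw]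
      unfold FF
      rw [hgx, hgw]
      congr 1
      unfold e2
      rw [negMulLog_one]
      unfold negMulLog
      norm_num
    have e0 : ∑ w ∈ S, FF (tt A b) d g x w ≤ ∑ w, FF (tt A b) d g x w :=
      sum_le_sum_of_subset_of_nonneg (subset_univ _) fun w _ _ => FF_nonneg hg0 x w
    refine le_trans ?_ e0
    rw [sum_congr rfl e1]
    rw [← sum_filter, sum_const, nsmul_eq_mul]
    apply mul_le_mul_of_nonneg_right _ (by positivity)
    have hex : ∀ i : Fin m, ∃ w : VV A b, i ∈ tt A b x \ K →
        (w ≠ x ∧ (tt A b x).erase i ⊆ tt A b w) := by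
      intro i
      by_cases hi : i ∈ tt A b x \ K
      · obtain ⟨u, h1, h2, h3⟩ := exists_nbr hbd hnd x.2 (mem_sdiff.1 hi).1
        exact ⟨⟨u, h1⟩, fun _ => ⟨fun e => h2 (congrArg Subtype.val e), h3⟩⟩
      · exact ⟨x, fun h => absurd h hi⟩
    choose w hw using hex
    have h2 : (tt A b x \ K).card ≤ (S.filter fun u => Adj (tt A b) d x u).card := by
      apply card_le_card_of_injOn w
      · intro i hi
        have hi' : i ∈ tt A b x \ K := hi
        obtain ⟨h3, h4⟩ := hw i hi'
        have hiK := (mem_sdiff.1 hi').2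
        rw [mem_coe, mem_filter, hS, mem_filter]
        refine ⟨⟨mem_univ _, fun j hj => h4 (mem_erase.2 ⟨fun e => hiK (e ▸ hj), hxK hj⟩)⟩, ?_⟩
        have h5 := adj_of_erase hnd x.2 (fun e => h3 (Subtype.ext e)) (mem_sdiff.1 hi').1 h4
        exact ⟨h3.symm, h5.2⟩
      · intro i hi j hj hij
        by_contra hne
        have hi' : i ∈ tt A b x \ K := hi
        have hj' : j ∈ tt A b x \ K := hj
        obtain ⟨h3, h4⟩ := hw i hi'
        obtain ⟨h5, h6⟩ := hw j hj'
        have h7 : i ∉ tt A b (w i) :=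
          notMem_of_erase hnd x.2 (w i).2 (fun e => h3 (Subtype.ext e)) h4
        apply h7
        rw [hij]
        exact h6 (mem_erase.2 ⟨hne, (mem_sdiff.1 hi').1⟩)
    rw [card_sdiff_of_subset hxK] at h2
    have h3 : (tt A b x).card = d := hnd x.1 x.2
    rw [h3] at h2
    exact_mod_cast h2
  have h2 : (S.card : ℝ) * (((d - K.card : ℕ) : ℝ) * (2 * log 2)) ≤
      ∑ v, ∑ w, FF (tt A b) d g v w := by
    have e1 := sum_le_sum hdeg
    rw [sum_const, nsmul_eq_mul] at e1
    refine e1.trans (sum_le_sum_of_subset_of_nonneg (subset_univ _) fun x _ _ =>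
      sum_nonneg fun w _ => FF_nonneg hg0 x w)
  have h3 : ∑ v, negMulLog (g v) - negMulLog (∑ v, g v) = S.card * log S.card := by
    have e1 : ∀ v, negMulLog (g v) = 0 := by
      intro v
      simp only [hg]
      split_ifs <;> simp
    have e3 : ∑ v, g v = S.card := by
      simp only [hg]
      rw [Finset.sum_ite_mem, univ_inter, sum_const, nsmul_eq_mul, mul_one]
    rw [sum_congr rfl fun v _ => e1 v, sum_const_zero, e3]
    unfold negMulLog
    ring
  rw [h3] at h1
  have hlk : 0 ≤ log ((q : ℝ) + 2) := Real.log_nonneg (by linarith)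
  have h4 := (mul_le_mul_of_nonneg_left h2 hlk).trans h1
  have h5 : ((d - K.card : ℕ) : ℝ) * (log k / ((k : ℝ) - 1)) ≤ log S.card := by
    have hk1 : (k : ℝ) - 1 = q + 1 := by rw [hkr]; ring
    rw [hk1, hkr, mul_div_assoc', div_le_iff₀ (by positivity)]
    have h6 : ((S.card : ℝ) * (2 * log 2)) * (((d - K.card : ℕ) : ℝ) * log ((q : ℝ) + 2)) ≤
        ((S.card : ℝ) * (2 * log 2)) * (log S.card * ((q : ℝ) + 1)) := by
      linarith
    exact le_of_mul_le_mul_left h6 (by positivity)
  rw [← Real.exp_nat_mul]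
  exact (Real.exp_le_exp.2 h5).trans (Real.exp_log hSr).le

/-- the constraints which are tight at all improving neighbours -/
noncomputable def NN (A : Fin m → Fin d → ℝ) (b : Fin m → ℝ) (f : (Fin d → ℝ) → ℝ) (v : VV A b) :
    Finset (Fin m) := by
  classical
  exact (tt A b v).filter fun i => ∀ w ∈ outV A b f v, i ∈ tt A b w

theorem card_NN (hnd : Nondegenerate A b) (f : (Fin d → ℝ) → ℝ) (v : VV A b) :
    d ≤ (NN A b f v).card + (outV A b f v).card := by
  classical
  have h1 : tt A b v \ NN A b f v ⊆ (outV A b f v).biUnion fun w => tt A b v \ tt A b w := by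
    intro i hi
    rw [mem_sdiff] at hi
    have h2 : ¬ ∀ w ∈ outV A b f v, i ∈ tt A b w := by
      intro h
      apply hi.2
      simp only [NN, mem_filter]
      exact ⟨hi.1, h⟩
    push Not at h2
    obtain ⟨w, hw, hiw⟩ := h2
    rw [mem_biUnion]
    exact ⟨w, hw, mem_sdiff.2 ⟨hi.1, hiw⟩⟩
  have h2 := card_biUnion_le_card_mul (outV A b f v) (fun w => tt A b v \ tt A b w) 1
    (fun w hw => by
      have h3 := (mem_improving.1 (mem_outV.1 hw)).2.1.2
      have h4 := card_sdiff_add_card_inter (tt A b v) (tt A b w)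
      have h5 : (tt A b v).card = d := hnd v.1 v.2
      have h6 : d ≤ (tt A b v ∩ tt A b w).card + 1 := h3
      omega)
  have h3 := card_le_card h1
  have h4 : NN A b f v ⊆ tt A b v := by
    simp only [NN]
    exact filter_subset _ _
  have h5 := card_sdiff_of_subset h4
  have h6 : (tt A b v).card = d := hnd v.1 v.2
  have h7 := card_le_card h4
  omega

/-- **The sum of the bound for abstract objective functions on bounded polyhedra.** -/
theorem sum_le (hbd : Bornology.IsBounded (Poly A b)) (hnd : Nondegenerate A b) {k : ℕ}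
    (hk : 2 ≤ k) (hcl : CliqueLE A b k) {f : (Fin d → ℝ) → ℝ} (hf : OneMax A b f) {x : ℝ}
    (hx : 0 ≤ x) :
    ∑ v : VV A b, (1 + x) ^ (d - (outV A b f v).card) ≤
      (Fintype.card (VV A b)) * (1 + x / exp (log k / ((k : ℝ) - 1))) ^ d := by
  classical
  set c := exp (log k / ((k : ℝ) - 1)) with hc
  have hc0 : 0 < c := exp_pos _
  have htc : ∀ v : VV A b, (tt A b v).card = d := fun v => hnd v.1 v.2
  have hNt : ∀ v, NN A b f v ⊆ tt A b v := by
    intro v
    simp only [NN]
    exact filter_subset _ _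
  -- expand the powers
  have h1 : ∀ v : VV A b, (1 + x) ^ (d - (outV A b f v).card) ≤
      ∑ L ∈ (NN A b f v).powerset, x ^ L.card := by
    intro v
    have e1 := sum_pow_mul_eq_add_pow x 1 (NN A b f v)
    simp only [one_pow, mul_one] at e1
    rw [e1, add_comm x 1]
    apply pow_le_pow_right₀ (by linarith)
    have := card_NN hnd f v
    omega
  set G : Finset (Fin m) → ℝ := fun K => ∑ w : VV A b,
    if K ⊆ tt A b w then (x / c) ^ (d - K.card) else 0 with hG
  have hG0 : ∀ K, 0 ≤ G K := by
    intro K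
    refine sum_nonneg fun w _ => ?_
    split_ifs
    · positivity
    · exact le_rfl
  have h2 : ∀ v : VV A b, ∀ L ∈ (NN A b f v).powerset, x ^ L.card ≤ G (tt A b v \ L) := by
    intro v L hL
    have hLt : L ⊆ tt A b v := (mem_powerset.1 hL).trans (hNt v)
    have hcard : d - (tt A b v \ L).card = L.card := by
      rw [card_sdiff_of_subset hLt, htc]
      have := card_le_card hLt
      rw [htc] at this
      omega
    have e1 : G (tt A b v \ L) = (x / c) ^ L.card *
        ((univ : Finset (VV A b)).filter fun w => (tt A b v \ L) ⊆ tt A b w).card := by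
      simp only [hG]
      rw [← sum_filter, sum_const, nsmul_eq_mul, hcard, mul_comm]
    have e3 := card_face hbd hnd hk hcl v (K := tt A b v \ L) sdiff_subset
    rw [hcard] at e3
    rw [e1]
    calc x ^ L.card = (x / c) ^ L.card * c ^ L.card := by
          rw [← mul_pow, div_mul_cancel₀ _ hc0.ne']
      _ ≤ _ := mul_le_mul_of_nonneg_left e3 (by positivity)
  -- the faces
  have hinj : ∀ p ∈ (univ : Finset (VV A b)).sigma (fun v => (NN A b f v).powerset),
      ∀ q ∈ (univ : Finset (VV A b)).sigma (fun v => (NN A b f v).powerset),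
      tt A b p.1 \ p.2 = tt A b q.1 \ q.2 → p = q := by
    rintro ⟨v, L⟩ hp ⟨w, M⟩ hq h
    simp only [mem_sigma, mem_univ, true_and, mem_powerset] at hp hq
    simp only at h
    have hmax : ∀ (v : VV A b) (L : Finset (Fin m)), L ⊆ NN A b f v →
        ∀ u ∈ improving A b f v.1, ¬ (tt A b v \ L) ⊆ tight A b u := by
      intro v L hL u hu hsub
      have hu' := mem_improving.1 hu
      obtain ⟨i, hi, hi'⟩ := exists_mem_notMem (inc_tt hnd) (v := v) (w := ⟨u, hu'.1⟩)
        (fun e => hu'.2.1.1 (congrArg Subtype.val e))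
      by_cases hiL : i ∈ L
      · have h3 := hL hiL
        simp only [NN, mem_filter] at h3
        exact hi' (h3.2 ⟨u, hu'.1⟩ (mem_outV.2 hu))
      · exact hi' (hsub (mem_sdiff.2 ⟨hi, hiL⟩))
    have hvw : v = w := by
      apply Subtype.ext
      apply hf (tt A b v \ L) v.1 v.2 w.1 w.2 sdiff_subset
      · rw [h]; exact sdiff_subset
      · exact hmax v L hp
      · rw [h]; exact hmax w M hq
    subst hvw
    have hL := hp.trans (hNt v)
    have hM := hq.trans (hNt v)
    have : L = M := by
      rw [← Finset.sdiff_sdiff_eq_self hL, h, Finset.sdiff_sdiff_eq_self hM]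
    rw [this]
  calc ∑ v : VV A b, (1 + x) ^ (d - (outV A b f v).card)
      ≤ ∑ v : VV A b, ∑ L ∈ (NN A b f v).powerset, G (tt A b v \ L) :=
        sum_le_sum fun v _ => (h1 v).trans (sum_le_sum (h2 v))
    _ = ∑ p ∈ (univ : Finset (VV A b)).sigma (fun v => (NN A b f v).powerset),
          G (tt A b p.1 \ p.2) := by rw [sum_sigma]
    _ = ∑ K ∈ ((univ : Finset (VV A b)).sigma (fun v => (NN A b f v).powerset)).image
          (fun p => tt A b p.1 \ p.2), G K := by
        rw [sum_image]
        intro p hp q hq h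
        exact hinj p hp q hq h
    _ ≤ ∑ K, G K := sum_le_sum_of_subset_of_nonneg (subset_univ _) fun K _ _ => hG0 K
    _ = ∑ w : VV A b, ∑ K ∈ (tt A b w).powerset, (x / c) ^ (d - K.card) := by
        simp only [hG]
        rw [sum_comm]
        refine sum_congr rfl fun w _ => ?_
        rw [← sum_filter]
        refine sum_congr ?_ fun _ _ => rfl
        ext K
        simp
    _ = ∑ _w : VV A b, (1 + x / c) ^ d := by
        refine sum_congr rfl fun w _ => ?_
        have e1 := sum_pow_mul_eq_add_pow 1 (x / c) (tt A b w)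
        simp only [one_pow, one_mul] at e1
        rw [htc] at e1
        exact e1
    _ = _ := by rw [sum_const, nsmul_eq_mul, card_univ]

end Pool.Agent.H80.SP
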