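import Mathlib
set_option autoImplicit false

/-!
# Linear programs and random pivot rules: definitions

`A : Fin m → Fin d → ℝ` and `b : Fin m → ℝ` are the data of the polyhedron `A x ≤ b` in dimension
`d`.
-/

namespace Pool.Agent.H80.SP

open Finset Matrix

variable {m d : ℕ}

/-- the polyhedron of all `x` with `A i ⬝ᵥ x ≤ b i` for all `i` -/
def Poly (A : Fin m → Fin d → ℝ) (b : Fin m → ℝ) : Set (Fin d → ℝ) :=
  {x | ∀ i, A i ⬝ᵥ x ≤ b i}

/-- the set of the tight constraints at `x` -/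
noncomputable def tight (A : Fin m → Fin d → ℝ) (b : Fin m → ℝ) (x : Fin d → ℝ) :
    Finset (Fin m) :=
  univ.filter fun i => A i ⬝ᵥ x = b i

theorem mem_tight {A : Fin m → Fin d → ℝ} {b : Fin m → ℝ} {x : Fin d → ℝ} {i : Fin m} :
    i ∈ tight A b x ↔ A i ⬝ᵥ x = b i := by simp [tight]

/-- at a vertex the tight constraints determine the point -/
theorem eq_zero_of_tight {A : Fin m → Fin d → ℝ} {b : Fin m → ℝ} {x : Fin d → ℝ}
    (hx : x ∈ (Poly A b).extremePoints ℝ) {δ : Fin d → ℝ}
    (hδ : ∀ i ∈ tight A b x, A i ⬝ᵥ δ = 0) : δ = 0 := by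
  set c : ℝ := 1 + ∑ i, |A i ⬝ᵥ δ| / (b i - A i ⬝ᵥ x) with hc
  have hx0 : ∀ i, 0 ≤ b i - A i ⬝ᵥ x := fun i => sub_nonneg.2 (hx.1 i)
  have hc0 : ∀ i, 0 ≤ |A i ⬝ᵥ δ| / (b i - A i ⬝ᵥ x) := fun i => div_nonneg (abs_nonneg _) (hx0 i)
  have hc1 : 0 < c := by
    have := sum_nonneg fun i (_ : i ∈ (univ : Finset (Fin m))) => hc0 i
    linarith
  have key : ∀ i, |A i ⬝ᵥ δ| ≤ c * (b i - A i ⬝ᵥ x) := by
    intro i
    by_cases hi : i ∈ tight A b x
    · rw [hδ i hi, abs_zero]
      exact mul_nonneg hc1.le (hx0 i)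
    · have h1 : 0 < b i - A i ⬝ᵥ x := by
        rcases (hx0 i).eq_or_lt with h | h
        · exact absurd (mem_tight.2 (by linarith)) hi
        · exact h
      rw [← div_le_iff₀ h1]
      have := single_le_sum (f := fun i => |A i ⬝ᵥ δ| / (b i - A i ⬝ᵥ x)) (fun i _ => hc0 i)
        (mem_univ i)
      linarith
  have hin : ∀ s : ℝ, |s| = 1 / c → x + s • δ ∈ Poly A b := by
    intro s hs i
    rw [dotProduct_add, dotProduct_smul, smul_eq_mul]
    have h1 : s * (A i ⬝ᵥ δ) ≤ |s| * |A i ⬝ᵥ δ| := by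
      rw [← abs_mul]; exact le_abs_self _
    have h2 : |s| * |A i ⬝ᵥ δ| ≤ b i - A i ⬝ᵥ x := by
      rw [hs]
      calc 1 / c * |A i ⬝ᵥ δ| ≤ 1 / c * (c * (b i - A i ⬝ᵥ x)) :=
            mul_le_mul_of_nonneg_left (key i) (by positivity)
        _ = b i - A i ⬝ᵥ x := by field_simp
    linarith
  have h1 := hin (1 / c) (abs_of_pos (by positivity))
  have h2 := hin (-(1 / c)) (by rw [abs_neg]; exact abs_of_pos (by positivity))
  have h3 : x ∈ openSegment ℝ (x + (1 / c) • δ) (x + (-(1 / c)) • δ) := by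
    refine ⟨1 / 2, 1 / 2, by norm_num, by norm_num, by norm_num, ?_⟩
    module
  have h4 := hx.2 h1 h2 h3
  have h5 : (1 / c) • δ = 0 := by simpa using h4
  rcases smul_eq_zero.1 h5 with h | h
  · exact absurd h (by positivity)
  · exact h

theorem tight_injOn (A : Fin m → Fin d → ℝ) (b : Fin m → ℝ) :
    Set.InjOn (tight A b) ((Poly A b).extremePoints ℝ) := by
  intro x hx y _ h
  have h1 : x - y = 0 := by
    refine eq_zero_of_tight hx fun i hi => ?_
    have hi' := hi
    rw [h] at hi'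
    rw [dotProduct_sub, mem_tight.1 hi, mem_tight.1 hi', sub_self]
  exact sub_eq_zero.1 h1

theorem finite_extremePoints (A : Fin m → Fin d → ℝ) (b : Fin m → ℝ) :
    ((Poly A b).extremePoints ℝ).Finite :=
  Set.Finite.of_injOn (Set.mapsTo_univ _ _) (tight_injOn A b) Set.finite_univ

/-- the set of the vertices of the polyhedron -/
noncomputable def vertices (A : Fin m → Fin d → ℝ) (b : Fin m → ℝ) : Finset (Fin d → ℝ) :=
  (finite_extremePoints A b).toFinset

/-- every vertex has exactly `d` tight constraints -/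
def Nondegenerate (A : Fin m → Fin d → ℝ) (b : Fin m → ℝ) : Prop :=
  ∀ x ∈ vertices A b, (tight A b x).card = d

/-- different vertices are adjacent if they share `d - 1` tight constraints -/
def Adjacent (A : Fin m → Fin d → ℝ) (b : Fin m → ℝ) (x y : Fin d → ℝ) : Prop :=
  x ≠ y ∧ d ≤ (tight A b x ∩ tight A b y).card + 1

/-- there are at most `k` pairwise adjacent vertices -/
def CliqueLE (A : Fin m → Fin d → ℝ) (b : Fin m → ℝ) (k : ℕ) : Prop :=
  ∀ s ⊆ vertices A b, (∀ x ∈ s, ∀ y ∈ s, x ≠ y → Adjacent A b x y) → s.card ≤ k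

open Classical in
/-- the set of the adjacent vertices with larger value of `f` -/
noncomputable def improving (A : Fin m → Fin d → ℝ) (b : Fin m → ℝ) (f : (Fin d → ℝ) → ℝ)
    (x : Fin d → ℝ) : Finset (Fin d → ℝ) :=
  (vertices A b).filter fun y => Adjacent A b x y ∧ f x < f y

/-- `prob A b f p T h x` is the probability that the rule `p` makes at least `T` further steps from
the vertex `x` when it has visited the vertices `h` before: `p (x :: h) y` is the probability of the
step to `y`. -/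
noncomputable def prob (A : Fin m → Fin d → ℝ) (b : Fin m → ℝ) (f : (Fin d → ℝ) → ℝ)
    (p : List (Fin d → ℝ) → (Fin d → ℝ) → ℝ) : ℕ → List (Fin d → ℝ) → (Fin d → ℝ) → ℝ
  | 0, _, _ => 1
  | T + 1, h, x => ∑ y ∈ improving A b f x, p (x :: h) y * prob A b f p T (x :: h) y

/-- `T x` is the expected number of steps of Random-Edge from the vertex `x` -/
def RandomEdge (A : Fin m → Fin d → ℝ) (b : Fin m → ℝ) (f : (Fin d → ℝ) → ℝ)
    (T : (Fin d → ℝ) → ℝ) : Prop :=
  ∀ x ∈ vertices A b, (improving A b f x = ∅ → T x = 0) ∧ ((improving A b f x).Nonempty →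
    T x = 1 + (∑ y ∈ improving A b f x, T y) / (improving A b f x).card)

/-- on every face at most one vertex is better than all its neighbours in the face: the faces are
the sets of the vertices at which the constraints of a set `K` are tight -/
def OneMax (A : Fin m → Fin d → ℝ) (b : Fin m → ℝ) (f : (Fin d → ℝ) → ℝ) : Prop :=
  ∀ K : Finset (Fin m), ∀ v ∈ vertices A b, ∀ w ∈ vertices A b, K ⊆ tight A b v →
    K ⊆ tight A b w → (∀ u ∈ improving A b f v, ¬ K ⊆ tight A b u) →
    (∀ u ∈ improving A b f w, ¬ K ⊆ tight A b u) → v = w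

theorem mem_vertices {A : Fin m → Fin d → ℝ} {b : Fin m → ℝ} {x : Fin d → ℝ} :
    x ∈ vertices A b ↔ x ∈ (Poly A b).extremePoints ℝ := by
  simp [vertices]

theorem mem_improving {A : Fin m → Fin d → ℝ} {b : Fin m → ℝ} {f : (Fin d → ℝ) → ℝ}
    {x y : Fin d → ℝ} :
    y ∈ improving A b f x ↔ y ∈ vertices A b ∧ Adjacent A b x y ∧ f x < f y := by
  simp [improving]

/-- three different vertices are not collinear -/
theorem line_unique {A : Fin m → Fin d → ℝ} {b : Fin m → ℝ} {v w w' : Fin d → ℝ}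
    (hv : v ∈ (Poly A b).extremePoints ℝ) (hw : w ∈ (Poly A b).extremePoints ℝ)
    (hw' : w' ∈ (Poly A b).extremePoints ℝ) {i : Fin m} (hi : i ∈ tight A b v) (hne : w ≠ v)
    (hne' : w' ≠ v) (h : (tight A b v).erase i ⊆ tight A b w)
    (h' : (tight A b v).erase i ⊆ tight A b w') : w = w' := by
  set α := A i ⬝ᵥ (w - v) with hα
  set α' := A i ⬝ᵥ (w' - v) with hα'
  have hk : ∀ j ∈ (tight A b v).erase i, A j ⬝ᵥ (w - v) = 0 := by
    intro j hj
    rw [dotProduct_sub, mem_tight.1 (h hj), mem_tight.1 (mem_of_mem_erase hj), sub_self]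
  have hk' : ∀ j ∈ (tight A b v).erase i, A j ⬝ᵥ (w' - v) = 0 := by
    intro j hj
    rw [dotProduct_sub, mem_tight.1 (h' hj), mem_tight.1 (mem_of_mem_erase hj), sub_self]
  have neg : ∀ {u : Fin d → ℝ}, u ∈ (Poly A b).extremePoints ℝ → u ≠ v →
      (∀ j ∈ (tight A b v).erase i, A j ⬝ᵥ (u - v) = 0) → A i ⬝ᵥ (u - v) < 0 := by
    intro u hu hne hk
    have h1 : A i ⬝ᵥ (u - v) ≤ 0 := by
      rw [dotProduct_sub, mem_tight.1 hi]
      have := hu.1 i
      linarith
    rcases h1.eq_or_lt with h2 | h2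
    · exfalso
      apply hne
      have h3 : u - v = 0 := by
        refine eq_zero_of_tight hv fun j hj => ?_
        by_cases hji : j = i
        · rw [hji]; exact h2
        · exact hk j (mem_erase.2 ⟨hji, hj⟩)
      exact sub_eq_zero.1 h3
    · exact h2
  have hα0 : α < 0 := neg hw hne hk
  have hα0' : α' < 0 := neg hw' hne' hk'
  have h1 : α' • (w - v) - α • (w' - v) = 0 := by
    refine eq_zero_of_tight hv fun j hj => ?_
    rw [dotProduct_sub, dotProduct_smul, dotProduct_smul, smul_eq_mul, smul_eq_mul]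
    by_cases hji : j = i
    · rw [hji, ← hα, ← hα']; ring
    · rw [hk j (mem_erase.2 ⟨hji, hj⟩), hk' j (mem_erase.2 ⟨hji, hj⟩)]; ring
  -- `w` lies between `v` and `w'` or `w'` lies between `v` and `w`
  have between : ∀ {u u' : Fin d → ℝ} {β β' : ℝ}, u ∈ (Poly A b).extremePoints ℝ →
      u' ∈ (Poly A b).extremePoints ℝ → β' < β → β < 0 → β' • (u - v) = β • (u' - v) → u = v := by
    intro u u' β β' hu hu' hβ hβ0 he
    have hβ' : β' < 0 := hβ.trans hβ0
    have h2 : u ∈ openSegment ℝ v u' := by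
      refine ⟨1 - β / β', β / β', ?_, div_pos_of_neg_of_neg hβ0 hβ', by ring, ?_⟩
      · rw [sub_pos, div_lt_one_of_neg hβ']
        exact hβ
      · have h3 : u - v = (β / β') • (u' - v) := by
          rw [div_eq_inv_mul, mul_smul, ← he, smul_smul, inv_mul_cancel₀ hβ'.ne, one_smul]
        have h4 : u = v + (β / β') • (u' - v) := by rw [← h3]; abel
        rw [h4]
        module
    exact (hu.2 hv.1 hu'.1 h2).symm
  have h2 : α' • (w - v) = α • (w' - v) := sub_eq_zero.1 h1
  rcases lt_trichotomy α' α with h3 | h3 | h3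
  · exact absurd (between hw hw' h3 hα0 h2) hne
  · rw [h3] at h2
    have h4 := smul_right_injective (Fin d → ℝ) hα0.ne h2
    exact sub_left_injective h4
  · exact absurd (between hw' hw h3 hα0' h2.symm) hne'

end Pool.Agent.H80.SP
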