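import Pool.Agent.H80.SP.Cor
set_option autoImplicit false

/-!
# Adjacent vertices are joined by an edge

In a nondegenerate polyhedron two different vertices share `d - 1` tight constraints if and only if
the segment between them is a face (an extreme subset).
-/

namespace Pool.Agent.H80.SP

open Finset Matrix

variable {m d : ℕ} {A : Fin m → Fin d → ℝ} {b : Fin m → ℝ}

theorem exists_step {x : Fin d → ℝ} (hx : x ∈ Poly A b) {δ : Fin d → ℝ}
    (hδ : ∀ i ∈ tight A b x, A i ⬝ᵥ δ = 0) :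
    ∃ c : ℝ, 0 < c ∧ x + c • δ ∈ Poly A b ∧ x + (-c) • δ ∈ Poly A b := by
  set c : ℝ := 1 + ∑ i, |A i ⬝ᵥ δ| / (b i - A i ⬝ᵥ x) with hc
  have hx0 : ∀ i, 0 ≤ b i - A i ⬝ᵥ x := fun i => sub_nonneg.2 (hx i)
  have hc0 : ∀ i, 0 ≤ |A i ⬝ᵥ δ| / (b i - A i ⬝ᵥ x) := fun i => div_nonneg (abs_nonneg _) (hx0 i)
  have hc1 : 0 < c := by
    have := sum_nonneg fun i (_ : i ∈ (univ : Finset (Fin m))) => hc0 i
    linarith
  have key : ∀ i, |A i ⬝ᵥ δ| ≤ c * (b i - A i ⬝ᵥ x) := by
    intro i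
    by_cases hi : i ∈ tight A b x
    · rw [hδ i hi, abs_zero]
      exact mul_nonneg hc1.le (hx0 i)
    · have h1 : 0 < b i - A i ⬝ᵥ x := by
        rcases (hx0 i).eq_or_lt with h | h
        · exact absurd (mem_tight.2 (by linarith)) hi
        · exact h
      rw [← div_le_iff₀ h1]
      have := single_le_sum (f := fun i => |A i ⬝ᵥ δ| / (b i - A i ⬝ᵥ x)) (fun i _ => hc0 i)
        (mem_univ i)
      linarith
  have hin : ∀ s : ℝ, |s| = 1 / c → x + s • δ ∈ Poly A b := by
    intro s hs i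
    rw [dotProduct_add, dotProduct_smul, smul_eq_mul]
    have h1 : s * (A i ⬝ᵥ δ) ≤ |s| * |A i ⬝ᵥ δ| := by
      rw [← abs_mul]; exact le_abs_self _
    have h2 : |s| * |A i ⬝ᵥ δ| ≤ b i - A i ⬝ᵥ x := by
      rw [hs]
      calc 1 / c * |A i ⬝ᵥ δ| ≤ 1 / c * (c * (b i - A i ⬝ᵥ x)) :=
            mul_le_mul_of_nonneg_left (key i) (by positivity)
        _ = b i - A i ⬝ᵥ x := by field_simp
    linarith
  exact ⟨1 / c, by positivity, hin (1 / c) (abs_of_pos (by positivity)),
    hin (-(1 / c)) (by rw [abs_neg]; exact abs_of_pos (by positivity))⟩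

theorem dot_of_mem_segment {a : Fin d → ℝ} {x y z : Fin d → ℝ} (hz : z ∈ segment ℝ x y) :
    ∃ s t : ℝ, 0 ≤ s ∧ 0 ≤ t ∧ s + t = 1 ∧ z = s • x + t • y ∧
      a ⬝ᵥ z = s * (a ⬝ᵥ x) + t * (a ⬝ᵥ y) := by
  obtain ⟨s, t, hs, ht, hst, rfl⟩ := hz
  exact ⟨s, t, hs, ht, hst, rfl, by
    rw [dotProduct_add, dotProduct_smul, dotProduct_smul, smul_eq_mul, smul_eq_mul]⟩

/-- **Adjacent vertices are joined by an edge.** -/
theorem adjacent_iff (hnd : Nondegenerate A b) {x y : Fin d → ℝ} (hx : x ∈ vertices A b)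
    (hy : y ∈ vertices A b) :
    Adjacent A b x y ↔ x ≠ y ∧ IsExtreme ℝ (Poly A b) (segment ℝ x y) := by
  have hx' := mem_vertices.1 hx
  have hy' := mem_vertices.1 hy
  have hseg : segment ℝ x y ⊆ Poly A b := by
    intro z hz i
    obtain ⟨s, t, hs, ht, hst, -, h⟩ := dot_of_mem_segment (a := A i) hz
    rw [h]
    have h1 := mul_le_mul_of_nonneg_left (hx'.1 i) hs
    have h2 := mul_le_mul_of_nonneg_left (hy'.1 i) ht
    have h3 : s * b i + t * b i = b i := by rw [← add_mul, hst, one_mul]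
    linarith
  constructor
  · rintro ⟨hne, hcard⟩
    refine ⟨hne, hseg, ?_⟩
    have hadj : Adj (tt A b) d ⟨x, hx⟩ ⟨y, hy⟩ :=
      ⟨fun e => hne (congrArg Subtype.val e), hcard⟩
    obtain ⟨i, hi, hiy⟩ := exists_mem_notMem (inc_tt hnd) hadj.1
    obtain ⟨i', hi', hix'⟩ := exists_mem_notMem (inc_tt hnd) hadj.1.symm
    have hsub := hadj.erase (inc_tt hnd) hi hiy
    have hi0 : A i ⬝ᵥ x = b i := mem_tight.1 hi
    have hi0' : A i' ⬝ᵥ y = b i' := mem_tight.1 hi'
    have hα : A i ⬝ᵥ (y - x) < 0 := by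
      have h1 : A i ⬝ᵥ y < b i := lt_of_le_of_ne (hy'.1 i) fun e => hiy (mem_tight.2 e)
      rw [dotProduct_sub, hi0]; linarith
    have hα' : 0 < A i' ⬝ᵥ (y - x) := by
      have h1 : A i' ⬝ᵥ x < b i' := lt_of_le_of_ne (hx'.1 i') fun e => hix' (mem_tight.2 e)
      rw [dotProduct_sub, hi0']; linarith
    intro p hp q hq z hz hzpq
    -- the common constraints are tight at `p`
    have hpR : ∀ j ∈ (tight A b x).erase i, A j ⬝ᵥ p = b j := by
      intro j hj
      have hjx : A j ⬝ᵥ x = b j := mem_tight.1 (mem_of_mem_erase hj)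
      have hjy : A j ⬝ᵥ y = b j := mem_tight.1 (hsub hj)
      obtain ⟨s, t, hs, ht, hst, -, h⟩ := dot_of_mem_segment (a := A j) hz
      have hjz : A j ⬝ᵥ z = b j := by
        rw [h, hjx, hjy, ← add_mul, hst, one_mul]
      obtain ⟨s', t', hs', ht', hst', he⟩ := hzpq
      have h3 : s' * (A j ⬝ᵥ p) + t' * (A j ⬝ᵥ q) = b j := by
        rw [← hjz, ← he, dotProduct_add, dotProduct_smul, dotProduct_smul, smul_eq_mul,
          smul_eq_mul]
      have h4 : s' * (b j - A j ⬝ᵥ p) + t' * (b j - A j ⬝ᵥ q) = 0 := by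
        have : s' * (b j - A j ⬝ᵥ p) + t' * (b j - A j ⬝ᵥ q) =
          (s' + t') * b j - (s' * (A j ⬝ᵥ p) + t' * (A j ⬝ᵥ q)) := by ring
        rw [this, hst', h3]; ring
      have h5 : 0 ≤ s' * (b j - A j ⬝ᵥ p) := mul_nonneg hs'.le (sub_nonneg.2 (hp j))
      have h6 : 0 ≤ t' * (b j - A j ⬝ᵥ q) := mul_nonneg ht'.le (sub_nonneg.2 (hq j))
      have h7 : s' * (b j - A j ⬝ᵥ p) = 0 := by linarith
      rcases mul_eq_zero.1 h7 with h8 | h8
      · exact absurd h8 hs'.ne'
      · linarith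
    set s : ℝ := (A i ⬝ᵥ (p - x)) / (A i ⬝ᵥ (y - x)) with hs
    have hβ : A i ⬝ᵥ (p - x) ≤ 0 := by
      rw [dotProduct_sub, hi0]
      have := hp i
      linarith
    have hs0 : 0 ≤ s := div_nonneg_of_nonpos hβ hα.le
    have heq : (p - x) - s • (y - x) = 0 := by
      refine eq_zero_of_tight hx' fun j hj => ?_
      rw [dotProduct_sub, dotProduct_smul, smul_eq_mul]
      by_cases hji : j = i
      · rw [hji, hs, div_mul_cancel₀ _ hα.ne, sub_self]
      · have hj' := mem_erase.2 ⟨hji, hj⟩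
        have h1 : A j ⬝ᵥ (p - x) = 0 := by
          rw [dotProduct_sub, hpR j hj', mem_tight.1 hj, sub_self]
        have h2 : A j ⬝ᵥ (y - x) = 0 := by
          rw [dotProduct_sub, mem_tight.1 (hsub hj'), mem_tight.1 hj, sub_self]
        rw [h1, h2]; ring
    have hpe : p = x + s • (y - x) := by
      have := sub_eq_zero.1 heq
      rw [← this]; abel
    have hs1 : s ≤ 1 := by
      have h1 := hp i'
      rw [hpe, dotProduct_add, dotProduct_smul, smul_eq_mul] at h1
      have h2 : A i' ⬝ᵥ x = b i' - A i' ⬝ᵥ (y - x) := by rw [dotProduct_sub, hi0']; ring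
      rw [h2] at h1
      by_contra hc
      push Not at hc
      have := mul_lt_mul_of_pos_right hc hα'
      linarith
    refine ⟨1 - s, s, by linarith, hs0, by ring, ?_⟩
    rw [hpe]
    module
  · rintro ⟨hne, hext⟩
    refine ⟨hne, ?_⟩
    by_contra hc
    push Not at hc
    -- a direction in the common constraints orthogonal to `y - x`
    set A' : Fin (m + 1) → Fin d → ℝ := Fin.cons (y - x) A with hA'
    set R := tight A b x ∩ tight A b y with hR
    obtain ⟨δ, hδ0, hδ⟩ := exists_dir A' (insert 0 (R.map (Fin.succEmb m))) (by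
      refine lt_of_le_of_lt (card_insert_le _ _) ?_
      rw [card_map]; exact hc)
    have hδ1 : (y - x) ⬝ᵥ δ = 0 := by
      have := hδ 0 (mem_insert_self _ _)
      simpa [hA'] using this
    have hδ2 : ∀ j ∈ R, A j ⬝ᵥ δ = 0 := by
      intro j hj
      have := hδ j.succ (mem_insert_of_mem (mem_map.2 ⟨j, hj, rfl⟩))
      simpa [hA'] using this
    set z : Fin d → ℝ := (1 / 2 : ℝ) • x + (1 / 2 : ℝ) • y with hz
    have hzs : z ∈ segment ℝ x y := ⟨1 / 2, 1 / 2, by norm_num, by norm_num, by norm_num, rfl⟩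
    have htz : ∀ j ∈ tight A b z, A j ⬝ᵥ δ = 0 := by
      intro j hj
      apply hδ2 j
      have h1 := mem_tight.1 hj
      rw [hz, dotProduct_add, dotProduct_smul, dotProduct_smul, smul_eq_mul, smul_eq_mul] at h1
      have h2 := hx'.1 j
      have h3 := hy'.1 j
      rw [hR, mem_inter, mem_tight, mem_tight]
      constructor <;> linarith
    obtain ⟨c, hc0, hc1, hc2⟩ := exists_step (hseg hzs) htz
    have hopen : z ∈ openSegment ℝ (z + c • δ) (z + (-c) • δ) := by
      refine ⟨1 / 2, 1 / 2, by norm_num, by norm_num, by norm_num, ?_⟩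
      module
    obtain ⟨s, t, hs, ht, hst, he⟩ := hext.2 hc1 hc2 hzs hopen
    have h1 : c • δ = (t - 1 / 2) • (y - x) := by
      have e1 : s = 1 - t := by linarith
      rw [e1, hz] at he
      have e2 : c • δ = (1 - t) • x + t • y - ((1 / 2 : ℝ) • x + (1 / 2 : ℝ) • y) := by
        rw [he]; abel
      rw [e2]
      module
    have h2 : (t - 1 / 2) * ((y - x) ⬝ᵥ (y - x)) = 0 := by
      have := congrArg (fun w => (y - x) ⬝ᵥ w) h1
      simp only [dotProduct_smul, smul_eq_mul, hδ1, mul_zero] at this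
      exact this.symm
    have h3 : (y - x) ⬝ᵥ (y - x) ≠ 0 := by
      rw [Ne, dotProduct_self_eq_zero]
      exact sub_ne_zero.2 hne.symm
    have h4 : t - 1 / 2 = 0 := (mul_eq_zero.1 h2).resolve_right h3
    rw [h4, zero_smul] at h1
    rcases smul_eq_zero.1 h1 with h | h
    · exact hc0.ne' h
    · exact hδ0 h

end Pool.Agent.H80.SP
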