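import Pool.Agent.H80.RE.Ent
set_option autoImplicit false

/-!
# The entropy inequality of a simple polyhedron

A simple polyhedron is given by the sets `t v` of the tight constraints of its vertices `v`.
-/

namespace Pool.Agent.H80.SP

open Finset Real Pool.Agent.H80.RE

/-- the tight constraints of the vertices of a simple polyhedron: every vertex has `d` of them and
different vertices have different ones; a vertex `v` has at most one neighbour for which a given
constraint `i ∈ t v` is not tight -/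
structure Inc {V ι : Type*} [DecidableEq ι] (t : V → Finset ι) (d : ℕ) : Prop where
  card : ∀ v, (t v).card = d
  inj : Function.Injective t
  line : ∀ v, ∀ i ∈ t v, ∀ w w', w ≠ v → w' ≠ v → (t v).erase i ⊆ t w → (t v).erase i ⊆ t w' →
    w = w'

/-- the adjacent vertices share `d - 1` tight constraints -/
def Adj {V ι : Type*} [DecidableEq ι] (t : V → Finset ι) (d : ℕ) (v w : V) : Prop :=
  v ≠ w ∧ d ≤ (t v ∩ t w).card + 1

section

variable {V ι : Type*} [DecidableEq ι] {t : V → Finset ι} {d r : ℕ}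

theorem Adj.symm {v w : V} (h : Adj t d v w) : Adj t d w v :=
  ⟨h.1.symm, by rw [inter_comm]; exact h.2⟩

theorem Adj.erase (ht : Inc t d) {v w : V} (h : Adj t d v w) {i : ι} (hi : i ∈ t v)
    (hw : i ∉ t w) : (t v).erase i ⊆ t w := by
  have h1 : t v ∩ t w ⊆ (t v).erase i := by
    intro j hj
    rw [mem_inter] at hj
    rw [mem_erase]
    exact ⟨fun e => hw (e ▸ hj.2), hj.1⟩
  have h2 : ((t v).erase i).card ≤ (t v ∩ t w).card := by
    rw [card_erase_of_mem hi, ht.card]
    have := h.2
    omega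
  rw [← eq_of_subset_of_card_le h1 h2]
  exact inter_subset_right

theorem exists_mem_notMem (ht : Inc t d) {v w : V} (h : v ≠ w) : ∃ i ∈ t v, i ∉ t w := by
  by_contra hc
  push Not at hc
  have h1 : t v = t w := eq_of_subset_of_card_le hc (by rw [ht.card, ht.card])
  exact h (ht.inj h1)

/-- a vertex has at most one neighbour for which a given constraint is not tight -/
theorem Adj.unique (ht : Inc t d) {v w w' : V} (h : Adj t d v w) (h' : Adj t d v w') {i : ι}
    (hi : i ∈ t v) (hw : i ∉ t w) (hw' : i ∉ t w') : w = w' :=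
  ht.line v i hi w w' h.1.symm h'.1.symm (h.erase ht hi hw) (h'.erase ht hi hw')

open Classical in
theorem card_nbr [Fintype V] (ht : Inc t d) (v : V) :
    ((univ : Finset V).filter fun w => Adj t d v w).card ≤ d := by
  have h1 : ((univ : Finset V).filter fun w => Adj t d v w) ⊆
      (t v).biUnion fun i => univ.filter fun w => Adj t d v w ∧ i ∉ t w := by
    intro w hw
    rw [mem_filter] at hw
    obtain ⟨i, hi, hi'⟩ := exists_mem_notMem ht hw.2.1
    rw [mem_biUnion]
    exact ⟨i, hi, by rw [mem_filter]; exact ⟨mem_univ _, hw.2, hi'⟩⟩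
  have h2 := card_biUnion_le_card_mul (t v) (fun i => univ.filter fun w => Adj t d v w ∧ i ∉ t w) 1
    (fun i hi => by
      rw [card_le_one]
      intro a ha b hb
      rw [mem_filter] at ha hb
      exact ha.2.1.unique ht hb.2.1 hi ha.2.2 hb.2.2)
  rw [ht.card, mul_one] at h2
  exact (card_le_card h1).trans h2

/-- the neighbours of `v` for which the constraint `i` gets tight form a clique -/
theorem clique (ht : Inc t d) {v u u' : V} {i : ι} (hv : i ∉ t v) (h : Adj t d v u)
    (h' : Adj t d v u') (hi : i ∈ t u) (hi' : i ∈ t u') (hne : u ≠ u') : Adj t d u u' := by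
  refine ⟨hne, ?_⟩
  have h1 := h.symm.erase ht hi hv
  have h2 := h'.symm.erase ht hi' hv
  have h3 := card_union_add_card_inter ((t u).erase i) ((t u').erase i)
  have h4 : ((t u).erase i ∪ (t u').erase i).card ≤ d := by
    rw [← ht.card v]
    exact card_le_card (union_subset h1 h2)
  rw [card_erase_of_mem hi, card_erase_of_mem hi', ht.card, ht.card] at h3
  have h5 : insert i ((t u).erase i ∩ (t u').erase i) ⊆ t u ∩ t u' := by
    intro j hj
    rw [mem_insert] at hj
    rcases hj with rfl | hj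
    · exact mem_inter.2 ⟨hi, hi'⟩
    · rw [mem_inter] at hj
      exact mem_inter.2 ⟨mem_of_mem_erase hj.1, mem_of_mem_erase hj.2⟩
  have h6 := card_le_card h5
  rw [card_insert_of_notMem (by simp)] at h6
  omega

end

theorem e2_mono {a b a' b' : ℝ} (ha : 0 ≤ a) (hb : 0 ≤ b) (haa : a ≤ a') (hbb : b ≤ b') :
    e2 a b ≤ e2 a' b' := by
  have h := e2_superadd ha hb (sub_nonneg.2 haa) (sub_nonneg.2 hbb)
  have h0 := e2_nonneg (sub_nonneg.2 haa) (sub_nonneg.2 hbb)
  have e1 : a + (a' - a) = a' := by ring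
  have e3 : b + (b' - b) = b' := by ring
  rw [e1, e3] at h
  linarith

open Classical in
/-- the terms of the entropy inequality -/
noncomputable def FF {V ι : Type*} [DecidableEq ι] (t : V → Finset ι) (d : ℕ) (g : V → ℝ)
    (v w : V) : ℝ := if Adj t d v w then e2 (g v) (g w) else 0

section

variable {V ι : Type*} [DecidableEq ι] {t : V → Finset ι} {d r : ℕ} {g : V → ℝ}

theorem FF_symm (v w : V) : FF t d g v w = FF t d g w v := by
  unfold FF
  by_cases h : Adj t d v w
  · rw [if_pos h, if_pos h.symm, e2_comm]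
  · rw [if_neg h, if_neg fun h' => h h'.symm]

theorem FF_nonneg (hg : ∀ v, 0 ≤ g v) (v w : V) : 0 ≤ FF t d g v w := by
  unfold FF
  split_ifs
  · exact e2_nonneg (hg v) (hg w)
  · exact le_rfl

theorem FF_self (v : V) : FF t d g v v = 0 := by
  unfold FF
  rw [if_neg fun h => h.1 rfl]

theorem cross (ht : Inc t d)
    (hcl : ∀ s : Finset V, (∀ v ∈ s, ∀ w ∈ s, v ≠ w → Adj t d v w) → s.card ≤ r + 1)
    (hg : ∀ v, 0 ≤ g v) (A B : Finset V) (i : ι) (hA : ∀ u ∈ A, i ∈ t u)
    (hB : ∀ v ∈ B, i ∉ t v) :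
    ∑ v ∈ B, ∑ u ∈ A, FF t d g v u ≤ r * e2 (∑ v ∈ B, g v) (∑ v ∈ A, g v) := by
  classical
  set s : V → ℝ := fun v => ∑ u ∈ A.filter (fun u => Adj t d v u), g u with hs
  have hs0 : ∀ v, 0 ≤ s v := fun v => sum_nonneg fun u _ => hg u
  have h1 : ∀ v ∈ B, ∑ u ∈ A, FF t d g v u ≤ r * e2 (g v) (s v) := by
    intro v hv
    have e1 : ∑ u ∈ A, FF t d g v u = ∑ u ∈ A.filter (fun u => Adj t d v u), e2 (g v) (g u) := by
      rw [sum_filter]
      refine sum_congr rfl fun u _ => ?_
      unfold FF
      congr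
    have e2' : ∀ u ∈ A.filter (fun u => Adj t d v u), e2 (g v) (g u) ≤ e2 (g v) (s v) := by
      intro u hu
      exact e2_mono (hg v) (hg u) le_rfl (single_le_sum (f := g) (fun w _ => hg w) hu)
    have e3 : (A.filter (fun u => Adj t d v u)).card ≤ r := by
      have hvn : v ∉ A.filter (fun u => Adj t d v u) := fun h =>
        hB v hv (hA v (mem_filter.1 h).1)
      have h2 := hcl (insert v (A.filter (fun u => Adj t d v u))) (by
        intro x hx y hy hxy
        rw [mem_insert, mem_filter] at hx hy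
        rcases hx with rfl | hx
        · rcases hy with rfl | hy
          · exact (hxy rfl).elim
          · exact hy.2
        · rcases hy with rfl | hy
          · exact hx.2.symm
          · exact clique ht (hB v hv) hx.2 hy.2 (hA _ hx.1) (hA _ hy.1) hxy)
      rw [card_insert_of_notMem hvn] at h2
      omega
    rw [e1]
    refine (sum_le_card_nsmul _ _ _ e2').trans ?_
    rw [nsmul_eq_mul]
    exact mul_le_mul_of_nonneg_right (by exact_mod_cast e3) (e2_nonneg (hg v) (hs0 v))
  have h2 : ∑ v ∈ B, s v ≤ ∑ u ∈ A, g u := by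
    simp only [hs, sum_filter]
    rw [sum_comm]
    refine sum_le_sum fun u hu => ?_
    rw [← sum_filter, sum_const, nsmul_eq_mul]
    have h3 : (B.filter (fun v => Adj t d v u)).card ≤ 1 := by
      rw [card_le_one]
      intro a ha b hb
      rw [mem_filter] at ha hb
      exact ha.2.symm.unique ht hb.2.symm (hA u hu) (hB a ha.1) (hB b hb.1)
    calc ((B.filter (fun v => Adj t d v u)).card : ℝ) * g u ≤ 1 * g u :=
          mul_le_mul_of_nonneg_right (by exact_mod_cast h3) (hg u)
      _ = g u := one_mul _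
  calc ∑ v ∈ B, ∑ u ∈ A, FF t d g v u ≤ ∑ v ∈ B, r * e2 (g v) (s v) := sum_le_sum h1
    _ = r * ∑ v ∈ B, e2 (g v) (s v) := by rw [mul_sum]
    _ ≤ r * e2 (∑ v ∈ B, g v) (∑ v ∈ B, s v) :=
        mul_le_mul_of_nonneg_left (e2_sum B g s hg hs0) (Nat.cast_nonneg r)
    _ ≤ _ := mul_le_mul_of_nonneg_left (e2_mono (sum_nonneg fun v _ => hg v)
        (sum_nonneg fun v _ => hs0 v) le_rfl h2) (Nat.cast_nonneg r)

theorem ent_aux (ht : Inc t d)
    (hcl : ∀ s : Finset V, (∀ v ∈ s, ∀ w ∈ s, v ≠ w → Adj t d v w) → s.card ≤ r + 1)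
    (hg : ∀ v, 0 ≤ g v) (S : Finset V) :
    ∑ v ∈ S, ∑ w ∈ S, FF t d g v w ≤
      2 * r * (∑ v ∈ S, negMulLog (g v) - negMulLog (∑ v ∈ S, g v)) := by
  classical
  induction S using Finset.strongInduction with
  | H S ih =>
    by_cases hS : ∃ u ∈ S, ∃ w ∈ S, u ≠ w
    · obtain ⟨u, hu, w, hw, huw⟩ := hS
      obtain ⟨i, hi, hi'⟩ := exists_mem_notMem ht huw
      set A := S.filter fun v => i ∈ t v with hA
      set B := S.filter fun v => ¬ i ∈ t v with hB
      have hAS : A ⊂ S := by
        rw [ssubset_iff_of_subset (filter_subset _ _)]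
        exact ⟨w, hw, fun h => hi' (mem_filter.1 h).2⟩
      have hBS : B ⊂ S := by
        rw [ssubset_iff_of_subset (filter_subset _ _)]
        exact ⟨u, hu, fun h => (mem_filter.1 h).2 hi⟩
      have hsplit : ∀ F : V → ℝ, ∑ v ∈ S, F v = ∑ v ∈ A, F v + ∑ v ∈ B, F v := fun F =>
        (sum_filter_add_sum_filter_not S (fun v => i ∈ t v) F).symm
      have h1 := ih A hAS
      have h2 := ih B hBS
      have h3 := cross ht hcl hg A B i (fun u hu => (mem_filter.1 hu).2)
        (fun v hv => (mem_filter.1 hv).2)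
      have h4 : ∑ v ∈ S, ∑ w ∈ S, FF t d g v w = ∑ v ∈ A, ∑ w ∈ A, FF t d g v w +
          ∑ v ∈ B, ∑ w ∈ B, FF t d g v w + 2 * ∑ v ∈ B, ∑ u ∈ A, FF t d g v u := by
        rw [hsplit, sum_congr rfl fun v _ => hsplit (FF t d g v),
          sum_congr (s₁ := B) rfl fun v _ => hsplit (FF t d g v), sum_add_distrib, sum_add_distrib]
        have h5 : ∑ v ∈ A, ∑ w ∈ B, FF t d g v w = ∑ v ∈ B, ∑ u ∈ A, FF t d g v u := by
          rw [sum_comm]
          exact sum_congr rfl fun v _ => sum_congr rfl fun u _ => FF_symm _ _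
        rw [h5]; ring
      rw [h4, hsplit (fun v => negMulLog (g v)), hsplit g]
      unfold e2 at h3
      rw [add_comm (∑ v ∈ A, g v)]
      linarith
    · push Not at hS
      rcases S.eq_empty_or_nonempty with rfl | ⟨u, hu⟩
      · simp
      · have e : S = {u} := by
          ext w
          rw [mem_singleton]
          exact ⟨fun hw => (hS u hu w hw).symm, fun e => e ▸ hu⟩
        rw [e]
        simp [FF_self]

/-- **The entropy inequality.** -/
theorem out_entropy [Fintype V] (ht : Inc t d) (hr : 1 ≤ r)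
    (hcl : ∀ s : Finset V, (∀ v ∈ s, ∀ w ∈ s, v ≠ w → Adj t d v w) → s.card ≤ r + 1)
    (f : V → ℝ) (out : V → Finset V) (hout : ∀ v, ∀ w ∈ out v, Adj t d v w ∧ f v < f w)
    (hg : ∀ v, 0 ≤ g v) :
    (1 / (r : ℝ)) * ∑ v, ∑ w ∈ out v, e2 (g v) (g w) ≤
      ∑ v, negMulLog (g v) - negMulLog (∑ v, g v) := by
  classical
  have h1 := ent_aux (r := r) ht hcl hg univ
  have hr0 : (0 : ℝ) < r := by exact_mod_cast hr
  have hnn : ∀ v w, 0 ≤ e2 (g v) (g w) := fun v w => e2_nonneg (hg v) (hg w)
  have h3 : 2 * ∑ v, ∑ w ∈ out v, e2 (g v) (g w) ≤ ∑ v, ∑ w, FF t d g v w := by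
    have e1 : ∀ v, ∑ w ∈ out v, e2 (g v) (g w) ≤
        ∑ w, if f v < f w then FF t d g v w else 0 := by
      intro v
      rw [← sum_filter]
      refine (sum_le_sum (g := fun w => FF t d g v w) fun w hw => ?_).trans ?_
      · unfold FF
        rw [if_pos (hout v w hw).1]
      · apply sum_le_sum_of_subset_of_nonneg
        · intro w hw
          rw [mem_filter]
          exact ⟨mem_univ _, (hout v w hw).2⟩
        · intro w _ _
          exact FF_nonneg hg v w
    have e3 : ∑ v, ∑ w, (if f v < f w then FF t d g v w else 0) =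
        ∑ v, ∑ w, if f w < f v then FF t d g v w else 0 := by
      rw [sum_comm]
      refine sum_congr rfl fun w _ => sum_congr rfl fun v _ => ?_
      rw [FF_symm]
    have e4 := sum_le_sum fun v (_ : v ∈ (univ : Finset V)) => e1 v
    have e5 : ∑ v, ∑ w, (if f v < f w then FF t d g v w else 0) +
        ∑ v, ∑ w, (if f w < f v then FF t d g v w else 0) ≤ ∑ v, ∑ w, FF t d g v w := by
      rw [← sum_add_distrib]
      refine sum_le_sum fun v _ => ?_
      rw [← sum_add_distrib]
      refine sum_le_sum fun w _ => ?_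
      have := FF_nonneg (t := t) (d := d) hg v w
      rcases lt_trichotomy (f v) (f w) with h' | h' | h'
      · simp [h', h'.not_gt]
      · simp [h', this]
      · simp [h', h'.not_gt]
    linarith
  rw [one_div, inv_mul_le_iff₀ hr0]
  linarith

end

end Pool.Agent.H80.SP
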