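import Pool.Agent.H80.SP.Cor
set_option autoImplicit false

/-!
# Random-Edge on simple polytopes
-/

namespace Pool.Agent.H80.SP

open Finset Matrix Real

variable {m d : ℕ} {A : Fin m → Fin d → ℝ} {b : Fin m → ℝ}

theorem card_outV_le (hnd : Nondegenerate A b) (f : (Fin d → ℝ) → ℝ) (v : VV A b) :
    (outV A b f v).card ≤ d := by
  classical
  refine (card_le_card fun w hw => ?_).trans (card_nbr (inc_tt hnd) v)
  rw [mem_filter]
  have h := (mem_improving.1 (mem_outV.1 hw)).2.1
  exact ⟨mem_univ _, fun e => h.1 (by rw [e]), h.2⟩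

theorem sum_vertices_le (hbd : Bornology.IsBounded (Poly A b)) (hnd : Nondegenerate A b) {k : ℕ}
    (hk : 2 ≤ k) (hcl : CliqueLE A b k) {f : (Fin d → ℝ) → ℝ} (hf : OneMax A b f) {z : ℝ}
    (hz : 0 < z) (hz1 : z ≤ 1) :
    ∑ v ∈ vertices A b, z ^ (improving A b f v).card ≤
      (z + (1 - z) * (k : ℝ) ^ (-(1 / ((k : ℝ) - 1)))) ^ d * (vertices A b).card := by
  have hx : 0 ≤ 1 / z - 1 := by
    rw [sub_nonneg, le_div_iff₀ hz]; linarith
  have h1 := sum_le hbd hnd hk hcl hf hx
  have h2 : ∑ v ∈ vertices A b, z ^ (improving A b f v).card =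
      z ^ d * ∑ v : VV A b, (1 + (1 / z - 1)) ^ (d - (outV A b f v).card) := by
    rw [← Finset.sum_coe_sort (vertices A b) (fun v => z ^ (improving A b f v).card), mul_sum]
    refine sum_congr rfl fun v _ => ?_
    have h3 := card_outV_le hnd f v
    rw [← card_outV]
    have e1 : 1 + (1 / z - 1) = z⁻¹ := by rw [one_div]; ring
    rw [e1]
    have e2 : z ^ d = z ^ (outV A b f v).card * z ^ (d - (outV A b f v).card) := by
      rw [← pow_add]; congr 1; omega
    rw [e2, mul_assoc, ← mul_pow, mul_inv_cancel₀ hz.ne', one_pow, mul_one]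
  rw [h2]
  have hk0 : (0 : ℝ) < k := by exact_mod_cast (by omega : 0 < k)
  have h4 : (exp (log k / ((k : ℝ) - 1)))⁻¹ = (k : ℝ) ^ (-(1 / ((k : ℝ) - 1))) := by
    rw [← Real.exp_neg, Real.rpow_def_of_pos hk0]
    congr 1
    ring
  have h5 : z * (1 + (1 / z - 1) / exp (log k / ((k : ℝ) - 1))) =
      z + (1 - z) * (k : ℝ) ^ (-(1 / ((k : ℝ) - 1))) := by
    rw [div_eq_mul_inv, h4]
    field_simp
  have h6 : Fintype.card (VV A b) = (vertices A b).card := Fintype.card_coe _
  calc z ^ d * ∑ v : VV A b, (1 + (1 / z - 1)) ^ (d - (outV A b f v).card)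
      ≤ z ^ d * ((Fintype.card (VV A b)) * (1 + (1 / z - 1) / exp (log k / ((k : ℝ) - 1))) ^ d) :=
        mul_le_mul_of_nonneg_left h1 (pow_nonneg hz.le d)
    _ = (z * (1 + (1 / z - 1) / exp (log k / ((k : ℝ) - 1)))) ^ d * (Fintype.card (VV A b)) := by
        rw [mul_pow]; ring
    _ = _ := by rw [h5, h6]

theorem poly_bound {k : ℕ} (hk : 2 ≤ k) {ε : ℝ} (hε : 0 < ε) : ∃ C : ℝ,
    ∀ (d m : ℕ) (A : Fin m → Fin d → ℝ) (b : Fin m → ℝ), Bornology.IsBounded (Poly A b) →
      Nondegenerate A b → CliqueLE A b k → ∀ f : (Fin d → ℝ) → ℝ, OneMax A b f →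
      ∀ T : (Fin d → ℝ) → ℝ, RandomEdge A b f T → ∀ x ∈ vertices A b,
        T x ≤ C * ((1 + ε) * ((k : ℝ) ^ (-(2 / ((k : ℝ) - 1))) +
          (1 - (k : ℝ) ^ (-(2 / ((k : ℝ) - 1)))) * (k : ℝ) ^ (-(1 / ((k : ℝ) - 1))))) ^ d *
          (vertices A b).card := by
  obtain ⟨C, hC⟩ := edge_bound hk hε
  refine ⟨max C 0, fun d m A b hbd hnd hcl f hf T hT x hx => ?_⟩
  have hk2 : (2 : ℝ) ≤ k := by exact_mod_cast hk
  have h1 := hC d m A b hnd hcl _ T hT x hx
  have hz : 0 < (k : ℝ) ^ (-(2 / ((k : ℝ) - 1))) := Real.rpow_pos_of_pos (by linarith) _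
  have hz1 : (k : ℝ) ^ (-(2 / ((k : ℝ) - 1))) ≤ 1 :=
    Real.rpow_le_one_of_one_le_of_nonpos (by linarith) (by
      have : 0 ≤ 2 / ((k : ℝ) - 1) := div_nonneg (by norm_num) (by linarith)
      linarith)
  have h2 := sum_vertices_le hbd hnd hk hcl hf hz hz1
  set z := (k : ℝ) ^ (-(2 / ((k : ℝ) - 1))) with hzd
  set S := ∑ v ∈ vertices A b, z ^ (improving A b f v).card with hS
  have hS0 : 0 ≤ S := sum_nonneg fun v _ => by positivity
  have hε0 : 0 ≤ (1 + ε) ^ d := by positivity
  calc T x ≤ C * (1 + ε) ^ d * S := h1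
    _ ≤ max C 0 * (1 + ε) ^ d * S :=
        mul_le_mul_of_nonneg_right (mul_le_mul_of_nonneg_right (le_max_left _ _) hε0) hS0
    _ ≤ max C 0 * (1 + ε) ^ d * ((z + (1 - z) * (k : ℝ) ^ (-(1 / ((k : ℝ) - 1)))) ^ d *
          (vertices A b).card) :=
        mul_le_mul_of_nonneg_left h2 (mul_nonneg (le_max_right _ _) hε0)
    _ = _ := by rw [mul_pow (1 + ε)]; ring

/-- the faces are counted by their local maxima -/
theorem faces_le (hnd : Nondegenerate A b) {f : (Fin d → ℝ) → ℝ} (hf : OneMax A b f)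
    (G : Finset (Fin m) → ℝ) (hG0 : ∀ K, 0 ≤ G K) :
    ∑ v : VV A b, ∑ L ∈ (NN A b f v).powerset, G (tt A b v \ L) ≤ ∑ K, G K := by
  classical
  have hNt : ∀ v, NN A b f v ⊆ tt A b v := by
    intro v
    simp only [NN]
    exact filter_subset _ _
  have hinj : ∀ p ∈ (univ : Finset (VV A b)).sigma (fun v => (NN A b f v).powerset),
      ∀ q ∈ (univ : Finset (VV A b)).sigma (fun v => (NN A b f v).powerset),
      tt A b p.1 \ p.2 = tt A b q.1 \ q.2 → p = q := by
    rintro ⟨v, L⟩ hp ⟨w, M⟩ hq h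
    simp only [mem_sigma, mem_univ, true_and, mem_powerset] at hp hq
    simp only at h
    have hmax : ∀ (v : VV A b) (L : Finset (Fin m)), L ⊆ NN A b f v →
        ∀ u ∈ improving A b f v.1, ¬ (tt A b v \ L) ⊆ tight A b u := by
      intro v L hL u hu hsub
      have hu' := mem_improving.1 hu
      obtain ⟨i, hi, hi'⟩ := exists_mem_notMem (inc_tt hnd) (v := v) (w := ⟨u, hu'.1⟩)
        (fun e => hu'.2.1.1 (congrArg Subtype.val e))
      by_cases hiL : i ∈ L
      · have h3 := hL hiL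
        simp only [NN, mem_filter] at h3
        exact hi' (h3.2 ⟨u, hu'.1⟩ (mem_outV.2 hu))
      · exact hi' (hsub (mem_sdiff.2 ⟨hi, hiL⟩))
    have hvw : v = w := by
      apply Subtype.ext
      apply hf (tt A b v \ L) v.1 v.2 w.1 w.2 sdiff_subset
      · rw [h]; exact sdiff_subset
      · exact hmax v L hp
      · rw [h]; exact hmax w M hq
    subst hvw
    have hL := hp.trans (hNt v)
    have hM := hq.trans (hNt v)
    have : L = M := by
      rw [← Finset.sdiff_sdiff_eq_self hL, h, Finset.sdiff_sdiff_eq_self hM]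
    rw [this]
  calc ∑ v : VV A b, ∑ L ∈ (NN A b f v).powerset, G (tt A b v \ L)
      = ∑ p ∈ (univ : Finset (VV A b)).sigma (fun v => (NN A b f v).powerset),
          G (tt A b p.1 \ p.2) := by rw [sum_sigma]
    _ = ∑ K ∈ ((univ : Finset (VV A b)).sigma (fun v => (NN A b f v).powerset)).image
          (fun p => tt A b p.1 \ p.2), G K := by
        rw [sum_image]
        intro p hp q hq h
        exact hinj p hp q hq h
    _ ≤ ∑ K, G K := sum_le_sum_of_subset_of_nonneg (subset_univ _) fun K _ _ => hG0 K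

/-- the sum of the bound and the number of constraints -/
theorem sum_constraints_le (hnd : Nondegenerate A b) {f : (Fin d → ℝ) → ℝ} (hf : OneMax A b f)
    {z : ℝ} (hz : 0 < z) (hz1 : z < 1) :
    ∑ v ∈ vertices A b, z ^ (improving A b f v).card ≤ (1 / (1 - z)) ^ (m - d) := by
  classical
  have hz1' : 0 < 1 - z := by linarith
  have htc : ∀ v : VV A b, (tt A b v).card = d := fun v => hnd v.1 v.2
  set G : Finset (Fin m) → ℝ := fun K =>
    if K.card ≤ d then z ^ K.card * (1 - z) ^ (d - K.card) else 0 with hG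
  have hG0 : ∀ K, 0 ≤ G K := by
    intro K
    simp only [hG]
    split_ifs
    · positivity
    · exact le_rfl
  have h1 : ∀ v : VV A b, z ^ (outV A b f v).card ≤
      ∑ L ∈ (NN A b f v).powerset, G (tt A b v \ L) := by
    intro v
    have hNt : NN A b f v ⊆ tt A b v := by
      simp only [NN]
      exact filter_subset _ _
    have hNd : (NN A b f v).card ≤ d := (card_le_card hNt).trans (htc v).le
    have e1 : ∀ L ∈ (NN A b f v).powerset, G (tt A b v \ L) =
        z ^ (d - (NN A b f v).card) * ((1 - z) ^ L.card * z ^ ((NN A b f v).card - L.card)) := by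
      intro L hL
      have hLN := mem_powerset.1 hL
      have hLt := hLN.trans hNt
      have c1 := card_le_card hLN
      have c2 : (tt A b v \ L).card = d - L.card := by
        rw [card_sdiff_of_subset hLt, htc]
      simp only [hG]
      rw [c2, if_pos (Nat.sub_le _ _)]
      have c3 : d - (d - L.card) = L.card := by omega
      have c4 : d - L.card = (d - (NN A b f v).card) + ((NN A b f v).card - L.card) := by omega
      rw [c3, c4, pow_add]
      ring
    rw [sum_congr rfl e1, ← mul_sum, sum_pow_mul_eq_add_pow, sub_add_cancel, one_pow, mul_one]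
    apply pow_le_pow_of_le_one hz.le hz1.le
    have := card_NN hnd f v
    omega
  have h2 := faces_le hnd hf G hG0
  have h3 : ∑ v ∈ vertices A b, z ^ (improving A b f v).card =
      ∑ v : VV A b, z ^ (outV A b f v).card := by
    rw [← Finset.sum_coe_sort (vertices A b) (fun v => z ^ (improving A b f v).card)]
    exact sum_congr rfl fun v _ => by rw [card_outV]
  rw [h3]
  rcases le_or_gt d m with hdm | hdm
  · have h4 : (∑ K, G K) * (1 - z) ^ (m - d) ≤ 1 := by
      rw [sum_mul]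
      have h5 := Fin.sum_pow_mul_eq_add_pow (n := m) z (1 - z)
      rw [add_sub_cancel, one_pow] at h5
      refine le_trans (sum_le_sum fun K _ => ?_) h5.le
      simp only [hG]
      split_ifs with h
      · rw [mul_assoc, ← pow_add]
        have : d - K.card + (m - d) = m - K.card := by omega
        rw [this]
      · rw [zero_mul]; positivity
    rw [one_div, inv_pow, ← one_div, le_div_iff₀ (by positivity)]
    refine le_trans (mul_le_mul_of_nonneg_right ((sum_le_sum fun v _ => h1 v).trans h2)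
      (by positivity)) h4
  · have h4 : IsEmpty (VV A b) := by
      constructor
      intro v
      have h5 := htc v
      have h6 := card_le_univ (tt A b v)
      rw [Fintype.card_fin] at h6
      omega
    simp
    positivity

theorem size_bound {k : ℕ} (hk : 2 ≤ k) {ε : ℝ} (hε : 0 < ε) : ∃ C : ℝ,
    ∀ (d m : ℕ) (A : Fin m → Fin d → ℝ) (b : Fin m → ℝ), Nondegenerate A b →
      CliqueLE A b k → ∀ f : (Fin d → ℝ) → ℝ, OneMax A b f →
      ∀ T : (Fin d → ℝ) → ℝ, RandomEdge A b f T → ∀ x ∈ vertices A b,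
        T x ≤ C * (1 + ε) ^ d * (1 / (1 - (k : ℝ) ^ (-(2 / ((k : ℝ) - 1))))) ^ (m - d) := by
  obtain ⟨C, hC⟩ := edge_bound hk hε
  refine ⟨max C 0, fun d m A b hnd hcl f hf T hT x hx => ?_⟩
  have hk2 : (2 : ℝ) ≤ k := by exact_mod_cast hk
  have h1 := hC d m A b hnd hcl _ T hT x hx
  have hz : 0 < (k : ℝ) ^ (-(2 / ((k : ℝ) - 1))) := Real.rpow_pos_of_pos (by linarith) _
  have hz1 : (k : ℝ) ^ (-(2 / ((k : ℝ) - 1))) < 1 :=
    Real.rpow_lt_one_of_one_lt_of_neg (by linarith) (by
      have : 0 < 2 / ((k : ℝ) - 1) := div_pos (by norm_num) (by linarith)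
      linarith)
  have h2 := sum_constraints_le hnd hf hz hz1
  set z := (k : ℝ) ^ (-(2 / ((k : ℝ) - 1))) with hzd
  set S := ∑ v ∈ vertices A b, z ^ (improving A b f v).card with hS
  have hS0 : 0 ≤ S := sum_nonneg fun v _ => by positivity
  have hε0 : 0 ≤ (1 + ε) ^ d := by positivity
  calc T x ≤ C * (1 + ε) ^ d * S := h1
    _ ≤ max C 0 * (1 + ε) ^ d * S :=
        mul_le_mul_of_nonneg_right (mul_le_mul_of_nonneg_right (le_max_left _ _) hε0) hS0
    _ ≤ _ := mul_le_mul_of_nonneg_left h2 (mul_nonneg (le_max_right _ _) hε0)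

end Pool.Agent.H80.SP
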