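import Pool.Agent.H80.GR.Grid
import Pool.Agent.H80.SP.Ent
set_option autoImplicit false

/-!
# The sharp entropy inequality of a simple polyhedron

The maximal sets of pairwise adjacent vertices partition the edges; the entropies of a measure on
these sets add up to at most the entropy of the measure.
-/

namespace Pool.Agent.H80.SP

open Finset Real Pool.Agent.H80.RE Pool.Agent.H80.GR

section

variable {V ι : Type*} [DecidableEq ι] {t : V → Finset ι} {d r : ℕ} {g : V → ℝ}

/-- common neighbours of adjacent vertices are adjacent -/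
theorem common_adj (ht : Inc t d) {v w u u' : V} (h : Adj t d v w) (h1 : Adj t d v u)
    (h2 : Adj t d w u) (h1' : Adj t d v u') (h2' : Adj t d w u') (hne : u ≠ u') :
    Adj t d u u' := by
  obtain ⟨a, hav, haw⟩ := exists_mem_notMem ht h.1
  have hu : a ∈ t u := by
    by_contra hc
    exact h2.1 (h.unique ht h1 hav haw hc)
  have hu' : a ∈ t u' := by
    by_contra hc
    exact h2'.1 (h.unique ht h1' hav haw hc)
  exact clique ht haw h2 h2' hu hu' hne

/-- `u` lies on the line through `v` and `w` -/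
def OnLine (t : V → Finset ι) (d : ℕ) (v w u : V) : Prop :=
  u = v ∨ u = w ∨ (Adj t d v u ∧ Adj t d w u)

theorem onLine_adj (ht : Inc t d) {v w x y : V} (h : Adj t d v w) (hx : OnLine t d v w x)
    (hy : OnLine t d v w y) (hne : x ≠ y) : Adj t d x y := by
  rcases hx with rfl | rfl | hx
  · rcases hy with rfl | rfl | hy
    · exact absurd rfl hne
    · exact h
    · exact hy.1
  · rcases hy with rfl | rfl | hy
    · exact h.symm
    · exact absurd rfl hne
    · exact hy.2
  · rcases hy with rfl | rfl | hy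
    · exact hx.1.symm
    · exact hx.2.symm
    · exact common_adj ht h hx.1 hx.2 hy.1 hy.2 hne

theorem onLine_closed (ht : Inc t d) {v w x y y' : V} (h : Adj t d v w)
    (hy : OnLine t d v w y) (hy' : OnLine t d v w y') (hne : y ≠ y') (hx : Adj t d x y)
    (hx' : Adj t d x y') : OnLine t d v w x := by
  have key : ∀ z, OnLine t d v w z → x ≠ z → Adj t d z x := by
    intro z hz hxz
    by_cases h1 : z = y
    · rw [h1]; exact hx.symm
    by_cases h2 : z = y'
    · rw [h2]; exact hx'.symm
    exact common_adj ht (onLine_adj ht h hy hy' hne) (onLine_adj ht h hy hz (Ne.symm h1))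
      (onLine_adj ht h hy' hz (Ne.symm h2)) hx.symm hx'.symm (Ne.symm hxz)
  by_cases h1 : x = v
  · exact Or.inl h1
  by_cases h2 : x = w
  · exact Or.inr (Or.inl h2)
  exact Or.inr (Or.inr ⟨key v (Or.inl rfl) h1, key w (Or.inr (Or.inl rfl)) h2⟩)

/-- a line: a maximal set of pairwise adjacent vertices with at least two elements -/
def IsLine (t : V → Finset ι) (d : ℕ) (L : Finset V) : Prop :=
  ∃ v w, Adj t d v w ∧ ∀ u, u ∈ L ↔ OnLine t d v w u

theorem IsLine.adj (ht : Inc t d) {L : Finset V} (hL : IsLine t d L) {x y : V} (hx : x ∈ L)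
    (hy : y ∈ L) (hne : x ≠ y) : Adj t d x y := by
  obtain ⟨v, w, h, hu⟩ := hL
  exact onLine_adj ht h ((hu x).1 hx) ((hu y).1 hy) hne

theorem IsLine.closed (ht : Inc t d) {L : Finset V} (hL : IsLine t d L) {x y y' : V}
    (hy : y ∈ L) (hy' : y' ∈ L) (hne : y ≠ y') (hx : Adj t d x y) (hx' : Adj t d x y') :
    x ∈ L := by
  obtain ⟨v, w, h, hu⟩ := hL
  exact (hu x).2 (onLine_closed ht h ((hu y).1 hy) ((hu y').1 hy') hne hx hx')

theorem IsLine.subset (ht : Inc t d) {L L' : Finset V} (hL : IsLine t d L) (hL' : IsLine t d L')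
    {x y : V} (hne : x ≠ y) (hx : x ∈ L) (hy : y ∈ L) (hx' : x ∈ L') (hy' : y ∈ L') : L ⊆ L' := by
  intro u hu
  by_cases h1 : u = x
  · rw [h1]; exact hx'
  by_cases h2 : u = y
  · rw [h2]; exact hy'
  exact hL'.closed ht hx' hy' hne (hL.adj ht hu hx h1) (hL.adj ht hu hy h2)

theorem IsLine.unique (ht : Inc t d) {L L' : Finset V} (hL : IsLine t d L)
    (hL' : IsLine t d L') {x y : V} (hne : x ≠ y) (hx : x ∈ L) (hy : y ∈ L) (hx' : x ∈ L')
    (hy' : y ∈ L') : L = L' :=
  Subset.antisymm (hL.subset ht hL' hne hx hy hx' hy') (hL'.subset ht hL hne hx' hy' hx hy)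

theorem EE_union [DecidableEq V] (g : V → ℝ) {A B : Finset V} (h : Disjoint A B) :
    EE g (A ∪ B) = EE g A + EE g B + e2 (∑ v ∈ A, g v) (∑ v ∈ B, g v) := by
  unfold EE e2
  rw [sum_union h, sum_union h]
  ring

theorem e2_zero_left (b : ℝ) : e2 0 b = 0 := by simp [e2]

theorem e2_zero_right (a : ℝ) : e2 a 0 = 0 := by simp [e2]

/-- **The entropies on the lines add up to at most the entropy.** -/
theorem lines_le [DecidableEq V] (ht : Inc t d) (hg : ∀ v, 0 ≤ g v) (F : Finset (Finset V))
    (hF : ∀ L ∈ F, IsLine t d L) (S : Finset V) : ∑ L ∈ F, EE g (S ∩ L) ≤ EE g S := by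
  classical
  induction S using Finset.strongInduction with
  | H S ih =>
    by_cases hS : ∃ u ∈ S, ∃ w ∈ S, u ≠ w
    · obtain ⟨u, hu, w, hw, huw⟩ := hS
      obtain ⟨i, hi, hi'⟩ := exists_mem_notMem ht huw
      set A := S.filter fun v => i ∈ t v with hA
      set B := S.filter fun v => ¬ i ∈ t v with hB
      have hAS : A ⊂ S := by
        rw [ssubset_iff_of_subset (filter_subset _ _)]
        exact ⟨w, hw, fun h => hi' (mem_filter.1 h).2⟩
      have hBS : B ⊂ S := by
        rw [ssubset_iff_of_subset (filter_subset _ _)]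
        exact ⟨u, hu, fun h => (mem_filter.1 h).2 hi⟩
      have hAB : Disjoint A B := disjoint_filter_filter_not _ _ _
      have hU : A ∪ B = S := filter_union_filter_not_eq _ _
      have hAi : ∀ v ∈ A, i ∈ t v := fun v hv => (mem_filter.1 hv).2
      have hBi : ∀ v ∈ B, i ∉ t v := fun v hv => (mem_filter.1 hv).2
      have h1 := ih A hAS
      have h2 := ih B hBS
      have h3 : ∀ L ∈ F, EE g (S ∩ L) = EE g (A ∩ L) + EE g (B ∩ L) +
          e2 (∑ v ∈ A ∩ L, g v) (∑ v ∈ B ∩ L, g v) := by
        intro L _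
        rw [← hU, union_inter_distrib_right]
        exact EE_union g (hAB.mono inter_subset_left inter_subset_left)
      -- the lines which meet both parts
      set C := F.filter fun L => (A ∩ L).Nonempty ∧ (B ∩ L).Nonempty with hC
      have h4 : ∑ L ∈ F, e2 (∑ v ∈ A ∩ L, g v) (∑ v ∈ B ∩ L, g v) =
          ∑ L ∈ C, e2 (∑ v ∈ A ∩ L, g v) (∑ v ∈ B ∩ L, g v) := by
        symm
        apply sum_subset (filter_subset _ _)
        intro L hL hLC
        rw [mem_filter] at hLC
        push Not at hLC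
        rcases (A ∩ L).eq_empty_or_nonempty with h | h
        · rw [h, sum_empty, e2_zero_left]
        · rw [hLC hL h, sum_empty, e2_zero_right]
      have hpick : ∀ L ∈ C, ∃ x y, x ∈ A ∧ x ∈ L ∧ y ∈ B ∧ y ∈ L := by
        intro L hL
        rw [hC, mem_filter] at hL
        obtain ⟨-, ⟨x, hx⟩, y, hy⟩ := hL
        rw [mem_inter] at hx hy
        exact ⟨x, y, hx.1, hx.2, hy.1, hy.2⟩
      have hCF : ∀ L ∈ C, IsLine t d L := fun L hL => hF L (mem_filter.1 hL).1
      have hneq : ∀ {x y : V}, x ∈ A → y ∈ B → x ≠ y := fun hx hy e => hBi _ hy (e ▸ hAi _ hx)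
      -- a vertex of `A` lies on at most one of them
      have hdA : (C : Set (Finset V)).PairwiseDisjoint fun L => A ∩ L := by
        intro L hL L' hL' hne
        rw [Function.onFun, disjoint_left]
        intro x hx hx'
        apply hne
        rw [mem_inter] at hx hx'
        obtain ⟨-, y, -, -, hyB, hyL⟩ := hpick L hL
        obtain ⟨-, y', -, -, hyB', hyL'⟩ := hpick L' hL'
        have a1 := (hCF L hL).adj ht hx.2 hyL (hneq hx.1 hyB)
        have a2 := (hCF L' hL').adj ht hx'.2 hyL' (hneq hx.1 hyB')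
        have a3 := a1.unique ht a2 (hAi x hx.1) (hBi y hyB) (hBi y' hyB')
        subst a3
        exact (hCF L hL).unique ht (hCF L' hL') (hneq hx.1 hyB) hx.2 hyL hx'.2 hyL'
      -- a vertex of `B` lies on at most one of them
      have hdB : (C : Set (Finset V)).PairwiseDisjoint fun L => B ∩ L := by
        intro L hL L' hL' hne
        rw [Function.onFun, disjoint_left]
        intro y hy hy'
        apply hne
        rw [mem_inter] at hy hy'
        obtain ⟨x, -, hxA, hxL, -, -⟩ := hpick L hL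
        obtain ⟨x', -, hxA', hxL', -, -⟩ := hpick L' hL'
        have a1 := (hCF L hL).adj ht hy.2 hxL (hneq hxA hy.1).symm
        have a2 := (hCF L' hL').adj ht hy'.2 hxL' (hneq hxA' hy.1).symm
        have hx'L : x' ∈ L := by
          by_cases he : x = x'
          · rw [← he]; exact hxL
          · exact (hCF L hL).closed ht hxL hy.2 (hneq hxA hy.1)
              (clique ht (hBi y hy.1) a1 a2 (hAi x hxA) (hAi x' hxA') he).symm a2.symm
        exact (hCF L hL).unique ht (hCF L' hL') (hneq hxA' hy.1) hx'L hy.2 hxL' hy'.2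
      have h5 : ∑ L ∈ C, e2 (∑ v ∈ A ∩ L, g v) (∑ v ∈ B ∩ L, g v) ≤
          e2 (∑ v ∈ A, g v) (∑ v ∈ B, g v) := by
        refine (e2_sum C _ _ (fun L => sum_nonneg fun v _ => hg v)
          (fun L => sum_nonneg fun v _ => hg v)).trans ?_
        have e1 : ∀ D : Finset V, (C : Set (Finset V)).PairwiseDisjoint (fun L => D ∩ L) →
            ∑ L ∈ C, ∑ v ∈ D ∩ L, g v ≤ ∑ v ∈ D, g v := by
          intro D hD
          rw [← sum_biUnion hD]
          apply sum_le_sum_of_subset_of_nonneg
          · intro v hv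
            rw [mem_biUnion] at hv
            obtain ⟨L, -, hv⟩ := hv
            exact (mem_inter.1 hv).1
          · intro v _ _
            exact hg v
        exact e2_mono (sum_nonneg fun L _ => sum_nonneg fun v _ => hg v)
          (sum_nonneg fun L _ => sum_nonneg fun v _ => hg v) (e1 A hdA) (e1 B hdB)
      have h6 : EE g S = EE g A + EE g B + e2 (∑ v ∈ A, g v) (∑ v ∈ B, g v) := by
        rw [← EE_union g hAB, hU]
      rw [sum_congr rfl h3, sum_add_distrib, sum_add_distrib, h4, h6]
      linarith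
    · push Not at hS
      have hE : ∀ D ⊆ S, EE g D = 0 := by
        intro D hD
        rcases D.eq_empty_or_nonempty with rfl | ⟨u, hu⟩
        · simp [EE]
        · have e : D = {u} := by
            ext w
            rw [mem_singleton]
            exact ⟨fun hw => (hS u (hD hu) w (hD hw)).symm, fun e => e ▸ hu⟩
          rw [e]
          simp [EE]
      rw [hE S (Subset.refl _)]
      exact (sum_eq_zero fun L _ => hE _ inter_subset_left).le

/-- the inequality of a line with at most `m + 2` points -/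
theorem line_card_le (a : V → ℝ) [DecidableEq V] (ha : ∀ i, 0 ≤ a i) {m : ℕ} (s : Finset V)
    (hs2 : 2 ≤ s.card) (hs : s.card ≤ m + 2) :
    log ((m : ℝ) + 2) * PP a s ≤ 2 * ((m : ℝ) + 1) * log 2 * EE a s := by
  obtain ⟨c, hc⟩ : ∃ c, s.card = c + 2 := ⟨s.card - 2, by omega⟩
  obtain ⟨b, rfl⟩ : ∃ b, m = c + b := ⟨m - c, by omega⟩
  have h1 := line a ha c s hc
  have h2 := log_mono c b
  have hP := PP_nonneg a ha s
  have hc : (0 : ℝ) ≤ c := Nat.cast_nonneg c
  have hb : (0 : ℝ) ≤ b := Nat.cast_nonneg b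
  push_cast
  have h3 : ((c : ℝ) + 1) * log ((c : ℝ) + b + 2) * PP a s ≤
      ((c : ℝ) + b + 1) * log ((c : ℝ) + 2) * PP a s := mul_le_mul_of_nonneg_right h2 hP
  have h4 : ((c : ℝ) + b + 1) * (log ((c : ℝ) + 2) * PP a s) ≤
      ((c : ℝ) + b + 1) * (2 * ((c : ℝ) + 1) * log 2 * EE a s) :=
    mul_le_mul_of_nonneg_left h1 (by positivity)
  have h5 : ((c : ℝ) + 1) * (log ((c : ℝ) + b + 2) * PP a s) ≤
      ((c : ℝ) + 1) * (2 * ((c : ℝ) + b + 1) * log 2 * EE a s) := by linarith
  exact le_of_mul_le_mul_left h5 (by positivity)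

/-- **The sharp entropy inequality**, for the vertices of a subset `S`. -/
theorem ent_sharp [Fintype V] (ht : Inc t d) (m : ℕ)
    (hcl : ∀ s : Finset V, (∀ v ∈ s, ∀ w ∈ s, v ≠ w → Adj t d v w) → s.card ≤ m + 2)
    (hg : ∀ v, 0 ≤ g v) :
    log ((m : ℝ) + 2) * ∑ v, ∑ w, FF t d g v w ≤
      2 * ((m : ℝ) + 1) * log 2 * (∑ v, negMulLog (g v) - negMulLog (∑ v, g v)) := by
  classical
  set F : Finset (Finset V) := univ.filter fun L => IsLine t d L with hFd
  have hF : ∀ L ∈ F, IsLine t d L := fun L hL => (mem_filter.1 hL).2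
  have h1 := lines_le ht hg F hF univ
  simp only [univ_inter] at h1
  have h2 : ∀ L ∈ F, log ((m : ℝ) + 2) * PP g L ≤ 2 * ((m : ℝ) + 1) * log 2 * EE g L := by
    intro L hL
    apply line_card_le g hg L
    · obtain ⟨v, w, h, hu⟩ := hF L hL
      have e1 : ({v, w} : Finset V) ⊆ L := by
        intro x hx
        rw [mem_insert, mem_singleton] at hx
        rcases hx with rfl | rfl
        · exact (hu x).2 (Or.inl rfl)
        · exact (hu x).2 (Or.inr (Or.inl rfl))
      have e2' := card_le_card e1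
      rwa [card_pair h.1] at e2'
    · exact hcl L fun v hv w hw hvw => (hF L hL).adj ht hv hw hvw
  have h3 : ∑ v, ∑ w, FF t d g v w ≤ ∑ L ∈ F, PP g L := by
    have e1 : ∀ L ∈ F, PP g L = ∑ v, ∑ w, if v ∈ L ∧ w ∈ L ∧ v ≠ w then e2 (g v) (g w) else 0 := by
      intro L _
      rw [PP_eq]
      rw [← sum_subset (subset_univ L)]
      · refine sum_congr rfl fun v hv => ?_
        rw [← sum_filter]
        refine sum_congr ?_ fun _ _ => rfl
        ext w
        simp only [mem_erase, mem_filter, mem_univ, true_and]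
        exact ⟨fun h => ⟨hv, h.2, h.1.symm⟩, fun h => ⟨h.2.2.symm, h.2.1⟩⟩
      · intro v _ hv
        exact sum_eq_zero fun w _ => if_neg fun h => hv h.1
    have e4 : ∑ L ∈ F, PP g L = ∑ v, ∑ w, ∑ L ∈ F,
        if v ∈ L ∧ w ∈ L ∧ v ≠ w then e2 (g v) (g w) else 0 := by
      rw [sum_congr rfl e1, sum_comm]
      refine sum_congr rfl fun v _ => ?_
      rw [sum_comm]
    rw [e4]
    refine sum_le_sum fun v _ => sum_le_sum fun w _ => ?_
    have hnn : ∀ L ∈ F, (0 : ℝ) ≤ if v ∈ L ∧ w ∈ L ∧ v ≠ w then e2 (g v) (g w) else 0 := by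
      intro L _
      split_ifs
      · exact e2_nonneg (hg v) (hg w)
      · exact le_rfl
    by_cases h : Adj t d v w
    · set L : Finset V := univ.filter fun u => OnLine t d v w u with hLd
      have hL : L ∈ F := by
        rw [hFd, mem_filter]
        exact ⟨mem_univ _, v, w, h, fun u => by rw [hLd, mem_filter]; simp⟩
      have e3 := single_le_sum hnn hL
      have hvL : v ∈ L := by rw [hLd, mem_filter]; exact ⟨mem_univ _, Or.inl rfl⟩
      have hwL : w ∈ L := by rw [hLd, mem_filter]; exact ⟨mem_univ _, Or.inr (Or.inl rfl)⟩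
      rw [if_pos ⟨hvL, hwL, h.1⟩] at e3
      unfold FF
      rw [if_pos h]
      exact e3
    · unfold FF
      rw [if_neg h]
      exact sum_nonneg hnn
  have hl : 0 ≤ log ((m : ℝ) + 2) := by
    apply Real.log_nonneg
    have : (0 : ℝ) ≤ m := Nat.cast_nonneg m
    linarith
  have hl2 : 0 < log 2 := Real.log_pos (by norm_num)
  have h4 : ∑ L ∈ F, log ((m : ℝ) + 2) * PP g L ≤
      ∑ L ∈ F, 2 * ((m : ℝ) + 1) * log 2 * EE g L := sum_le_sum h2
  rw [← mul_sum, ← mul_sum] at h4
  have h5 := mul_le_mul_of_nonneg_left h3 hl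
  have h6 : 2 * ((m : ℝ) + 1) * log 2 * ∑ L ∈ F, EE g L ≤
      2 * ((m : ℝ) + 1) * log 2 * EE g univ :=
    mul_le_mul_of_nonneg_left h1 (by positivity)
  unfold EE at h6 h4
  linarith

/-- **The sharp entropy inequality** for the improving edges. -/
theorem out_sharp [Fintype V] (ht : Inc t d) (m : ℕ)
    (hcl : ∀ s : Finset V, (∀ v ∈ s, ∀ w ∈ s, v ≠ w → Adj t d v w) → s.card ≤ m + 2)
    (f : V → ℝ) (out : V → Finset V) (hout : ∀ v, ∀ w ∈ out v, Adj t d v w ∧ f v < f w)
    (hg : ∀ v, 0 ≤ g v) :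
    (log ((m : ℝ) + 2) / (((m : ℝ) + 1) * log 2)) * ∑ v, ∑ w ∈ out v, e2 (g v) (g w) ≤
      ∑ v, negMulLog (g v) - negMulLog (∑ v, g v) := by
  classical
  have hl : 0 < log 2 := Real.log_pos (by norm_num)
  have h1 := ent_sharp ht m hcl hg
  have h3 : 2 * ∑ v, ∑ w ∈ out v, e2 (g v) (g w) ≤ ∑ v, ∑ w, FF t d g v w := by
    have e1 : ∀ v, ∑ w ∈ out v, e2 (g v) (g w) ≤
        ∑ w, if f v < f w then FF t d g v w else 0 := by
      intro v
      rw [← sum_filter]
      refine (sum_le_sum (g := fun w => FF t d g v w) fun w hw => ?_).trans ?_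
      · unfold FF
        rw [if_pos (hout v w hw).1]
      · apply sum_le_sum_of_subset_of_nonneg
        · intro w hw
          rw [mem_filter]
          exact ⟨mem_univ _, (hout v w hw).2⟩
        · intro w _ _
          exact FF_nonneg hg v w
    have e3 : ∑ v, ∑ w, (if f v < f w then FF t d g v w else 0) =
        ∑ v, ∑ w, if f w < f v then FF t d g v w else 0 := by
      rw [sum_comm]
      refine sum_congr rfl fun w _ => sum_congr rfl fun v _ => ?_
      rw [FF_symm]
    have e4 := sum_le_sum fun v (_ : v ∈ (univ : Finset V)) => e1 v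
    have e5 : ∑ v, ∑ w, (if f v < f w then FF t d g v w else 0) +
        ∑ v, ∑ w, (if f w < f v then FF t d g v w else 0) ≤ ∑ v, ∑ w, FF t d g v w := by
      rw [← sum_add_distrib]
      refine sum_le_sum fun v _ => ?_
      rw [← sum_add_distrib]
      refine sum_le_sum fun w _ => ?_
      have := FF_nonneg (t := t) (d := d) hg v w
      rcases lt_trichotomy (f v) (f w) with h' | h' | h'
      · simp [h', h'.not_gt]
      · simp [h', this]
      · simp [h', h'.not_gt]
    linarith
  have hlk : 0 ≤ log ((m : ℝ) + 2) := by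
    apply Real.log_nonneg
    have : (0 : ℝ) ≤ m := Nat.cast_nonneg m
    linarith
  have h4 := mul_le_mul_of_nonneg_left h3 hlk
  rw [div_mul_eq_mul_div, div_le_iff₀ (by positivity)]
  linarith

end

end Pool.Agent.H80.SP
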