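import Pool.Agent.H80.GR.Fin
import Pool.Agent.H80.SP.Lines
set_option autoImplicit false

/-!
# The bound for the number of steps on simple polyhedra
-/

namespace Pool.Agent.H80.SP

open Finset Real Pool.Agent.H80.RE Pool.Agent.H80.GR

/-- an injective function with the same strict inequalities -/
theorem exists_injective {V : Type} [Fintype V] (f : V → ℝ) :
    ∃ f' : V → ℝ, Function.Injective f' ∧ ∀ v w, f v < f w → f' v < f' w := by
  classical
  set N : ℕ := Fintype.card V with hN
  set e : V → ℕ := fun v => (Fintype.equivFin V v : ℕ) with he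
  have heN : ∀ v, e v < N := fun v => (Fintype.equivFin V v).2
  set c : V → ℕ := fun v => ((univ : Finset V).filter fun u => f u < f v).card with hc
  have hcm : ∀ v w, f v < f w → c v + 1 ≤ c w := by
    intro v w h
    have h1 : (univ : Finset V).filter (fun u => f u < f v) ⊂ univ.filter (fun u => f u < f w) := by
      rw [ssubset_iff_of_subset]
      · exact ⟨v, by simp [h], by simp⟩
      · intro u hu
        rw [mem_filter] at hu ⊢
        exact ⟨mem_univ _, hu.2.trans h⟩
    exact card_lt_card h1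
  have hm : ∀ v w, f v < f w → c v * (N + 1) + e v < c w * (N + 1) + e w := by
    intro v w h
    have h1 := hcm v w h
    have h2 : (c v + 1) * (N + 1) ≤ c w * (N + 1) := Nat.mul_le_mul_right _ h1
    have := heN v
    nlinarith
  refine ⟨fun v => ((c v * (N + 1) + e v : ℕ) : ℝ), ?_, fun v w h => Nat.cast_lt.2 (hm v w h)⟩
  intro v w h
  have h1 : c v * (N + 1) + e v = c w * (N + 1) + e w := Nat.cast_injective (R := ℝ) h
  rcases lt_trichotomy (f v) (f w) with h2 | h2 | h2
  · have := hm v w h2; omega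
  · have h3 : c v = c w := by simp only [hc, h2]
    rw [h3] at h1
    have h4 : e v = e w := by omega
    exact (Fintype.equivFin V).injective (Fin.ext h4)
  · have := hm w v h2; omega

/-- there are few vertices with few improving neighbours -/
theorem card_low_le {V : Type} [Fintype V] [DecidableEq V] (out : V → Finset V) {b : ℝ}
    (hb : 0 < b) (B : ℕ) :
    ((low out B).card : ℝ) ≤ exp (b * B) * ∑ v, exp (-b) ^ (out v).card := by
  have h1 : ((low out B).card : ℝ) * exp (-b) ^ B ≤ ∑ v, exp (-b) ^ (out v).card := by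
    calc ((low out B).card : ℝ) * exp (-b) ^ B = ∑ _v ∈ low out B, exp (-b) ^ B := by
          rw [sum_const, nsmul_eq_mul]
      _ ≤ ∑ v ∈ low out B, exp (-b) ^ (out v).card := by
          refine sum_le_sum fun v hv => ?_
          have hv2 : (out v).card < B := by simpa [low] using hv
          exact pow_le_pow_of_le_one (exp_pos _).le (Real.exp_le_one_iff.2 (by linarith)) hv2.le
      _ ≤ ∑ v, exp (-b) ^ (out v).card :=
          sum_le_sum_of_subset_of_nonneg (subset_univ _) fun v _ _ => by positivity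
  have h2 : exp (b * B) * exp (-b) ^ B = 1 := by
    rw [← Real.exp_nat_mul, ← Real.exp_add]
    have : b * B + B * -b = 0 := by ring
    rw [this, Real.exp_zero]
  calc ((low out B).card : ℝ) = exp (b * B) * (((low out B).card : ℝ) * exp (-b) ^ B) := by
        rw [mul_left_comm, h2, mul_one]
    _ ≤ _ := mul_le_mul_of_nonneg_left h1 (exp_pos _).le

/-- **The bound for the number of steps.** -/
theorem main {k : ℕ} (hk : 2 ≤ k) {ρ ε : ℝ} (hρ : 1 ≤ ρ) (hε : 0 < ε) :
    ∃ C : ℝ, ∀ (d : ℕ) (V ι : Type) [Fintype V] [DecidableEq V] [DecidableEq ι]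
      (t : V → Finset ι), Inc t d →
      (∀ s : Finset V, (∀ v ∈ s, ∀ w ∈ s, v ≠ w → Adj t d v w) → s.card ≤ k) →
      ∀ (f : V → ℝ) (out : V → Finset V), (∀ v, ∀ w ∈ out v, Adj t d v w ∧ f v < f w) →
      Function.Injective f →
      ∀ (S : Type) (W : Walk f out ρ S) (N : ℕ) (σ0 : S), W.occ N σ0 1 ≤
        C * (1 + ε) ^ d *
          ∑ v, exp (-(2 * log k / (((k : ℝ) - 1) * ρ))) ^ (out v).card := by
  classical
  obtain ⟨m, hm⟩ : ∃ m, k = m + 2 := ⟨k - 2, by omega⟩
  have hkr : (k : ℝ) = (m : ℝ) + 2 := by rw [hm]; push_cast; ring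
  have hm0 : (0 : ℝ) ≤ m := Nat.cast_nonneg m
  have hl2 : 0 < log 2 := Real.log_pos (by norm_num)
  have hlk : 0 < log ((m : ℝ) + 2) := Real.log_pos (by linarith)
  set κ : ℝ := log ((m : ℝ) + 2) / (((m : ℝ) + 1) * log 2) with hκd
  have hκ : 0 < κ := by positivity
  have hκ1 : κ ≤ 1 := by
    rw [hκd, div_le_one (by positivity)]
    exact log_nat_le m
  set b : ℝ := κ * (2 * log 2 / ρ) with hb
  have hb0 : 0 < b := by positivity
  have hbe : b = 2 * log k / (((k : ℝ) - 1) * ρ) := by
    rw [hb, hκd, hkr]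
    have : (m : ℝ) + 2 - 1 = m + 1 := by ring
    rw [this]
    field_simp
  rw [← hbe]
  have hlε : 0 < log (1 + ε) := Real.log_pos (by linarith)
  set η := log (1 + ε) / 4 with hη
  have hη0 : 0 < η := by positivity
  set R := exp (2 * η) with hR
  have hR0 : 0 < R := by positivity
  have hRε : R < 1 + ε := by
    have h1 : exp (4 * η) = 1 + ε := by
      have : 4 * η = log (1 + ε) := by
        rw [hη]; ring
      rw [this, Real.exp_log (by linarith)]
    have h2 : exp (2 * η) < exp (4 * η) := Real.exp_lt_exp.2 (by linarith)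
    rw [h1] at h2
    exact h2
  obtain ⟨k0, hk0, n0, hren⟩ := ren hρ hη0 hκ hκ1
  set M := ⌈b / η⌉₊ + 1 with hM
  have hM1 : 1 ≤ M := by omega
  have hbM : b / M ≤ η := by
    rw [div_le_iff₀ (by positivity)]
    have h1 : b / η ≤ M := by
      rw [hM]; push_cast
      have := Nat.le_ceil (b / η)
      linarith
    rw [div_le_iff₀ hη0] at h1
    linarith
  set p := 3 * M + (6 + 3 * M + 3 * M * k0) with hp
  obtain ⟨C1, hC1, hC1'⟩ := poly_exp p hR0 hRε
  set C2 := 2 * M * (2 + 8 * M * (4 * M) ^ k0 * exp (η + b)) with hC2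
  have hC20 : 0 ≤ C2 := by positivity
  refine ⟨max (C2 * C1) (exp (b * (max n0 1 : ℕ))),
    fun d V ι _ _ _ t ht hcl f out hout hf S W N σ0 => ?_⟩
  have hε1 : 1 ≤ (1 + ε) ^ d := one_le_pow₀ (by linarith)
  have hε0 : 0 ≤ (1 + ε) ^ d := zero_le_one.trans hε1
  have hdeg : ∀ v, (out v).card ≤ d := by
    intro v
    refine (card_le_card fun w hw => ?_).trans (card_nbr ht v)
    rw [mem_filter]
    exact ⟨mem_univ _, (hout v w hw).1⟩
  have hin : ∀ w, (univ.filter fun v => w ∈ out v).card ≤ d := by
    intro w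
    refine (card_le_card fun v hv => ?_).trans (card_nbr ht w)
    rw [mem_filter] at hv ⊢
    exact ⟨mem_univ _, (hout v w hv.2).1.symm⟩
  set A := ∑ v, exp (-b) ^ (out v).card with hA
  have hA1 : 1 ≤ A := by
    obtain ⟨v, -, hv⟩ := exists_max_image univ f ⟨W.X σ0, mem_univ _⟩
    have h1 : out v = ∅ := by
      rw [eq_empty_iff_forall_notMem]
      intro w hw
      exact absurd (hout v w hw).2 (hv w (mem_univ _)).not_gt
    have h2 := single_le_sum (f := fun v => exp (-b) ^ (out v).card)
      (fun v _ => (by positivity : 0 ≤ exp (-b) ^ (out v).card)) (mem_univ v)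
    simpa [h1] using h2
  rcases le_or_gt (max n0 1) d with hn | hn
  · have hn1 : 1 ≤ d := (le_max_right _ _).trans hn
    have hn0 : n0 ≤ d := (le_max_left _ _).trans hn
    have h2 := W.one_n hf N σ0 (n := d) hb0 hη0 hA1 (card_low_le out hb0)
      hdeg k0 hk0 hn1 M hM1 hbM
      (fun l hl hln σ => hren d hn0 V f out
        (fun g hg => out_sharp ht m (fun s hs => hm ▸ hcl s hs) f out hout hg) hin S W l hl hln σ)
    refine h2.trans ?_
    rw [← hC2, ← hp]
    have e2 : exp (2 * η * (d : ℝ)) = R ^ d := by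
      rw [hR, ← Real.exp_nat_mul]
      congr 1
      ring
    rw [e2]
    calc C2 * (((d : ℝ) + 1) ^ p * (R ^ d * A)) = C2 * ((((d : ℝ) + 1) ^ p * R ^ d) * A) := by ring
      _ ≤ C2 * (C1 * (1 + ε) ^ d * A) := by
          apply mul_le_mul_of_nonneg_left _ hC20
          exact mul_le_mul_of_nonneg_right (hC1' d) (zero_le_one.trans hA1)
      _ = C2 * C1 * (1 + ε) ^ d * A := by ring
      _ ≤ _ := mul_le_mul_of_nonneg_right
          (mul_le_mul_of_nonneg_right (le_max_left _ _) hε0) (zero_le_one.trans hA1)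
  · have h2 := W.occ_one_le N σ0
    refine h2.trans ?_
    have h3 : ((Fintype.card V : ℕ) : ℝ) ≤ exp (b * (max n0 1 : ℕ)) * A := by
      have h4 := card_low_le out hb0 (max n0 1)
      have h5 : low out (max n0 1) = univ := by
        ext v
        simp only [low, mem_filter, mem_univ, true_and, iff_true]
        exact (hdeg v).trans_lt hn
      rw [h5, card_univ] at h4
      exact h4
    refine h3.trans ?_
    have h6 : exp (b * (max n0 1 : ℕ)) ≤
        max (C2 * C1) (exp (b * (max n0 1 : ℕ))) * (1 + ε) ^ d := by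
      calc exp (b * (max n0 1 : ℕ)) = exp (b * (max n0 1 : ℕ)) * 1 := by ring
        _ ≤ _ := mul_le_mul (le_max_right _ _) hε1 zero_le_one
            ((exp_pos _).le.trans (le_max_right _ _))
    exact mul_le_mul_of_nonneg_right h6 (zero_le_one.trans hA1)

end Pool.Agent.H80.SP
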