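import Pool.Agent.H80.SP.Def
import Pool.Agent.H80.SP.Main
set_option autoImplicit false

/-!
# Random-Edge and rules with memory on nondegenerate linear programs
-/

namespace Pool.Agent.H80.SP

open Finset Real Filter Topology
open Pool.Agent.H80.GR (Walk Walk.P_apply Walk.occ Walk.P)

variable {m d : ℕ} {A : Fin m → Fin d → ℝ} {b : Fin m → ℝ}

/-- the type of the vertices -/
abbrev VV (A : Fin m → Fin d → ℝ) (b : Fin m → ℝ) : Type := {x // x ∈ vertices A b}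

/-- the tight constraints of a vertex -/
noncomputable def tt (A : Fin m → Fin d → ℝ) (b : Fin m → ℝ) (v : VV A b) : Finset (Fin m) :=
  tight A b v.1

theorem inc_tt (h : Nondegenerate A b) : Inc (tt A b) d where
  card v := h v.1 v.2
  inj v w e := Subtype.ext (tight_injOn A b (mem_vertices.1 v.2) (mem_vertices.1 w.2) e)
  line v _ hi w w' hw hw' h h' := Subtype.ext (line_unique (mem_vertices.1 v.2)
    (mem_vertices.1 w.2) (mem_vertices.1 w'.2) hi (fun e => hw (Subtype.ext e))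
    (fun e => hw' (Subtype.ext e)) h h')

theorem clique_tt {k : ℕ} (h : CliqueLE A b k) (s : Finset (VV A b))
    (hs : ∀ v ∈ s, ∀ w ∈ s, v ≠ w → Adj (tt A b) d v w) : s.card ≤ k := by
  have h1 := h (s.map (Function.Embedding.subtype _)) (by
    intro x hx
    rw [Finset.mem_map] at hx
    obtain ⟨v, -, rfl⟩ := hx
    exact v.2) (by
    intro x hx y hy hxy
    rw [Finset.mem_map] at hx hy
    obtain ⟨v, hv, rfl⟩ := hx
    obtain ⟨w, hw, rfl⟩ := hy
    have hvw : v ≠ w := fun e => hxy (by rw [e])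
    exact ⟨hxy, (hs v hv w hw hvw).2⟩)
  rwa [card_map] at h1

open Classical in
/-- the improving neighbours -/
noncomputable def outV (A : Fin m → Fin d → ℝ) (b : Fin m → ℝ) (f : (Fin d → ℝ) → ℝ)
    (v : VV A b) : Finset (VV A b) :=
  (improving A b f v.1).subtype fun x => x ∈ vertices A b

theorem mem_outV {f : (Fin d → ℝ) → ℝ} {v w : VV A b} :
    w ∈ outV A b f v ↔ w.1 ∈ improving A b f v.1 := by
  simp [outV]

theorem sum_outV (f : (Fin d → ℝ) → ℝ) (v : VV A b) (F : (Fin d → ℝ) → ℝ) :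
    ∑ w ∈ outV A b f v, F w.1 = ∑ y ∈ improving A b f v.1, F y := by
  unfold outV
  exact sum_subtype_of_mem F fun y hy => (mem_improving.1 hy).1

theorem card_outV (f : (Fin d → ℝ) → ℝ) (v : VV A b) :
    (outV A b f v).card = (improving A b f v.1).card := by
  have h := sum_outV f v fun _ => 1
  simp only [sum_const, nsmul_eq_mul, mul_one] at h
  exact_mod_cast h

theorem outV_spec {f : (Fin d → ℝ) → ℝ} {f' : VV A b → ℝ}
    (hf : ∀ v w : VV A b, f v.1 < f w.1 → f' v < f' w) (v : VV A b) :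
    ∀ w ∈ outV A b f v, Adj (tt A b) d v w ∧ f' v < f' w := by
  intro w hw
  obtain ⟨-, h2, h3⟩ := mem_improving.1 (mem_outV.1 hw)
  exact ⟨⟨fun e => h2.1 (by rw [e]), h2.2⟩, hf v w h3⟩

theorem base_eq {k : ℕ} (hk : 2 ≤ k) (ρ : ℝ) : exp (-(2 * log k / (((k : ℝ) - 1) * ρ))) =
    (k : ℝ) ^ (-(2 / (((k : ℝ) - 1) * ρ))) := by
  have hk0 : (0 : ℝ) < k := by exact_mod_cast (by omega : 0 < k)
  rw [Real.rpow_def_of_pos hk0]
  congr 1
  ring

/-- the bound for walks -/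
theorem walk_bound {k : ℕ} (hk : 2 ≤ k) {ρ ε : ℝ} (hρ : 1 ≤ ρ) (hε : 0 < ε) : ∃ C : ℝ,
    ∀ (d m : ℕ) (A : Fin m → Fin d → ℝ) (b : Fin m → ℝ), Nondegenerate A b →
      CliqueLE A b k → ∀ (f : (Fin d → ℝ) → ℝ) (f' : VV A b → ℝ),
      (∀ v w : VV A b, f v.1 < f w.1 → f' v < f' w) → Function.Injective f' →
      ∀ (S : Type) (W : Walk f' (outV A b f) ρ S) (N : ℕ) (σ0 : S), W.occ N σ0 1 ≤
        C * (1 + ε) ^ d * ∑ v ∈ vertices A b,
          ((k : ℝ) ^ (-(2 / (((k : ℝ) - 1) * ρ)))) ^ (improving A b f v).card := by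
  classical
  obtain ⟨C, hC⟩ := main hk hρ hε
  refine ⟨C, fun d m A b hnd hcl f f' hf hf' S W N σ0 => ?_⟩
  have h1 := hC d (VV A b) (Fin m) (tt A b) (inc_tt hnd) (clique_tt hcl) f' (outV A b f)
    (outV_spec hf) hf' S W N σ0
  rw [base_eq hk] at h1
  have h2 : ∑ v : VV A b, ((k : ℝ) ^ (-(2 / (((k : ℝ) - 1) * ρ)))) ^ (outV A b f v).card =
      ∑ v ∈ vertices A b, ((k : ℝ) ^ (-(2 / (((k : ℝ) - 1) * ρ)))) ^ (improving A b f v).card := by
    rw [← Finset.sum_coe_sort (vertices A b)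
      (fun v => ((k : ℝ) ^ (-(2 / (((k : ℝ) - 1) * ρ)))) ^ (improving A b f v).card)]
    exact sum_congr rfl fun v _ => by rw [card_outV]
  rw [h2] at h1
  exact h1

/-- a rule with memory as a walk -/
noncomputable def ruleWalk (f : (Fin d → ℝ) → ℝ) (f' : VV A b → ℝ)
    (hf : ∀ v w : VV A b, f v.1 < f w.1 → f' v < f' w) (ρ : ℝ)
    (p : List (Fin d → ℝ) → (Fin d → ℝ) → ℝ) (h0 : ∀ h y, 0 ≤ p h y)
    (h1 : ∀ x ∈ vertices A b, ∀ h, ∑ y ∈ improving A b f x, p (x :: h) y ≤ 1)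
    (hb : ∀ x ∈ vertices A b, ∀ h, ∀ y ∈ improving A b f x,
      p (x :: h) y * (improving A b f x).card ≤ ρ) :
    Walk f' (outV A b f) ρ (VV A b × List (Fin d → ℝ)) where
  X σ := σ.1
  nxt σ y := (y, σ.1.1 :: σ.2)
  q σ y := p (σ.1.1 :: σ.2) y.1
  inc v w h := (outV_spec hf v w h).2
  hX _ _ _ := rfl
  q0 _ _ := h0 _ _
  q1 σ := by
    rw [sum_outV f σ.1 fun y => p (σ.1.1 :: σ.2) y]
    exact h1 σ.1.1 σ.1.2 σ.2
  qb σ y hy := by
    rw [card_outV]
    exact hb σ.1.1 σ.1.2 σ.2 y.1 (mem_outV.1 hy)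

theorem prob_eq (f : (Fin d → ℝ) → ℝ) (f' : VV A b → ℝ)
    (hf : ∀ v w : VV A b, f v.1 < f w.1 → f' v < f' w) (ρ : ℝ)
    (p : List (Fin d → ℝ) → (Fin d → ℝ) → ℝ) (h0 : ∀ h y, 0 ≤ p h y)
    (h1 : ∀ x ∈ vertices A b, ∀ h, ∑ y ∈ improving A b f x, p (x :: h) y ≤ 1)
    (hb : ∀ x ∈ vertices A b, ∀ h, ∀ y ∈ improving A b f x,
      p (x :: h) y * (improving A b f x).card ≤ ρ) (T : ℕ)
    (h : List (Fin d → ℝ)) (x : VV A b) :
    prob A b f p T h x.1 = ((ruleWalk f f' hf ρ p h0 h1 hb).P ^ T) 1 (x, h) := by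
  induction T generalizing h x with
  | zero => simp [prob]
  | succ T ih =>
    rw [prob, pow_succ', Module.End.mul_apply, Walk.P_apply]
    rw [← sum_outV f x fun y => p (x.1 :: h) y * prob A b f p T (x.1 :: h) y]
    refine sum_congr rfl fun i _ => ?_
    rw [ih]
    rfl

theorem rule_bound {k : ℕ} (hk : 2 ≤ k) {ρ ε : ℝ} (hρ : 1 ≤ ρ) (hε : 0 < ε) : ∃ C : ℝ,
    ∀ (d m : ℕ) (A : Fin m → Fin d → ℝ) (b : Fin m → ℝ), Nondegenerate A b →
      CliqueLE A b k → ∀ (f : (Fin d → ℝ) → ℝ)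
      (p : List (Fin d → ℝ) → (Fin d → ℝ) → ℝ), (∀ h y, 0 ≤ p h y) →
      (∀ x ∈ vertices A b, ∀ h, ∑ y ∈ improving A b f x, p (x :: h) y ≤ 1) →
      (∀ x ∈ vertices A b, ∀ h, ∀ y ∈ improving A b f x,
        p (x :: h) y * (improving A b f x).card ≤ ρ) →
      ∀ x ∈ vertices A b, ∀ N : ℕ, ∑ t ∈ range N, prob A b f p (t + 1) [] x ≤
        C * (1 + ε) ^ d * ∑ v ∈ vertices A b,
          ((k : ℝ) ^ (-(2 / (((k : ℝ) - 1) * ρ)))) ^ (improving A b f v).card := by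
  obtain ⟨C, hC⟩ := walk_bound hk hρ hε
  refine ⟨C, fun d m A b hnd hcl f p h0 h1 hb x hx N => ?_⟩
  obtain ⟨f', hf', hf⟩ := exists_injective fun v : VV A b => f v.1
  refine le_trans ?_ (hC d m A b hnd hcl f f' hf hf' _ (ruleWalk f f' hf ρ p h0 h1 hb) (N + 1)
    (⟨x, hx⟩, []))
  unfold Walk.occ
  rw [sum_range_succ']
  have h2 : ∑ t ∈ range N, prob A b f p (t + 1) [] x =
      ∑ t ∈ range N, ((ruleWalk f f' hf ρ p h0 h1 hb).P ^ (t + 1)) 1 (⟨x, hx⟩, []) :=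
    sum_congr rfl fun t _ => prob_eq f f' hf ρ p h0 h1 hb (t + 1) [] ⟨x, hx⟩
  rw [h2]
  simp

/-- Random-Edge as a walk -/
noncomputable def edgeWalk (f : (Fin d → ℝ) → ℝ) (f' : VV A b → ℝ)
    (hf : ∀ v w : VV A b, f v.1 < f w.1 → f' v < f' w) :
    Walk f' (outV A b f) 1 (VV A b) where
  X x := x
  nxt _ y := y
  q x _ := 1 / (outV A b f x).card
  inc v w h := (outV_spec hf v w h).2
  hX _ _ _ := rfl
  q0 _ _ := by positivity
  q1 x := by
    rw [sum_const, nsmul_eq_mul]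
    rcases Nat.eq_zero_or_pos (outV A b f x).card with h | h
    · rw [h]; simp
    · have : ((outV A b f x).card : ℝ) ≠ 0 := by exact_mod_cast h.ne'
      rw [mul_one_div_cancel this]
  qb x i hi := by
    have : ((outV A b f x).card : ℝ) ≠ 0 := by
      exact_mod_cast (card_pos.2 ⟨i, hi⟩).ne'
    rw [one_div_mul_cancel this]

theorem randomEdge_eq {f : (Fin d → ℝ) → ℝ} {f' : VV A b → ℝ}
    (hf : ∀ v w : VV A b, f v.1 < f w.1 → f' v < f' w) {T : (Fin d → ℝ) → ℝ}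
    (hT : RandomEdge A b f T) :
    (fun v : VV A b => T v.1) =
      (edgeWalk f f' hf).P 1 + (edgeWalk f f' hf).P (fun v : VV A b => T v.1) := by
  funext x
  rw [Pi.add_apply, Walk.P_apply, Walk.P_apply]
  show T x.1 = ∑ i ∈ outV A b f x, 1 / ((outV A b f x).card : ℝ) * 1 +
    ∑ i ∈ outV A b f x, 1 / ((outV A b f x).card : ℝ) * T i.1
  rw [← mul_sum, ← mul_sum, sum_outV f x T, sum_const, card_outV]
  rcases (improving A b f x.1).eq_empty_or_nonempty with h | h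
  · rw [(hT x.1 x.2).1 h, h]; simp
  · rw [(hT x.1 x.2).2 h]
    have : ((improving A b f x.1).card : ℝ) ≠ 0 := by exact_mod_cast (card_pos.2 h).ne'
    rw [nsmul_eq_mul]
    field_simp

theorem randomEdge_iter {f : (Fin d → ℝ) → ℝ} {f' : VV A b → ℝ}
    (hf : ∀ v w : VV A b, f v.1 < f w.1 → f' v < f' w) {T : (Fin d → ℝ) → ℝ}
    (hT : RandomEdge A b f T) (N : ℕ) (x : VV A b) :
    T x.1 = ∑ t ∈ range N, ((edgeWalk f f' hf).P ^ (t + 1)) 1 x +
      ((edgeWalk f f' hf).P ^ N) (fun v : VV A b => T v.1) x := by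
  induction N with
  | zero => simp
  | succ N ih =>
    have h1 : ((edgeWalk f f' hf).P ^ N) (fun v : VV A b => T v.1) x =
        ((edgeWalk f f' hf).P ^ (N + 1)) 1 x +
        ((edgeWalk f f' hf).P ^ (N + 1)) (fun v : VV A b => T v.1) x := by
      conv_lhs => rw [randomEdge_eq hf hT]
      rw [map_add, Pi.add_apply, pow_succ, Module.End.mul_apply, Module.End.mul_apply]
    rw [sum_range_succ, ih]
    linarith

/-- a bound for the time the walk spends before it stops is a bound for the expectation -/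
theorem edge_limit {f : (Fin d → ℝ) → ℝ} {f' : VV A b → ℝ}
    (hf : ∀ v w : VV A b, f v.1 < f w.1 → f' v < f' w) {T : (Fin d → ℝ) → ℝ}
    (hT : RandomEdge A b f T) {Z : ℝ} (x : VV A b)
    (hZ : ∀ N, (edgeWalk f f' hf).occ N x 1 ≤ Z) : T x.1 ≤ Z := by
  set W := edgeWalk f f' hf with hW
  have hsum : Summable fun t => (W.P ^ t) 1 x := by
    apply summable_of_sum_range_le (c := Z)
    · intro t; exact W.Pj_nonneg t (fun _ => zero_le_one) x
    · intro N; exact hZ N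
  have hlim := hsum.tendsto_atTop_zero
  obtain ⟨B, hB⟩ : ∃ B : ℝ, ∀ y : VV A b, T y.1 ≤ B := by
    refine ⟨∑ y : VV A b, |T y.1|, fun y => (le_abs_self _).trans ?_⟩
    exact single_le_sum (f := fun y : VV A b => |T y.1|) (fun _ _ => abs_nonneg _) (mem_univ y)
  have h2 : ∀ N, T x.1 ≤ Z + B * (W.P ^ N) 1 x := by
    intro N
    rw [randomEdge_iter hf hT N x]
    apply add_le_add
    · refine le_trans ?_ (hZ (N + 1))
      unfold Walk.occ
      rw [sum_range_succ']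
      simp [hW]
    · have h3 : (fun v : VV A b => T v.1) ≤ B • (1 : VV A b → ℝ) := by
        intro y; simpa using hB y
      have h4 := W.Pj_mono N h3 x
      rw [map_smul] at h4
      simpa using h4
  have h3 : Tendsto (fun N => Z + B * (W.P ^ N) 1 x) atTop
      (𝓝 (Z + B * 0)) := tendsto_const_nhds.add (hlim.const_mul B)
  rw [mul_zero, add_zero] at h3
  exact ge_of_tendsto' h3 h2

theorem edge_bound {k : ℕ} (hk : 2 ≤ k) {ε : ℝ} (hε : 0 < ε) : ∃ C : ℝ,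
    ∀ (d m : ℕ) (A : Fin m → Fin d → ℝ) (b : Fin m → ℝ), Nondegenerate A b →
      CliqueLE A b k → ∀ (f T : (Fin d → ℝ) → ℝ), RandomEdge A b f T →
      ∀ x ∈ vertices A b, T x ≤ C * (1 + ε) ^ d * ∑ v ∈ vertices A b,
        ((k : ℝ) ^ (-(2 / ((k : ℝ) - 1)))) ^ (improving A b f v).card := by
  obtain ⟨C, hC⟩ := walk_bound hk (le_refl (1 : ℝ)) hε
  refine ⟨C, fun d m A b hnd hcl f T hT x hx => ?_⟩
  obtain ⟨f', hf', hf⟩ := exists_injective fun v : VV A b => f v.1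
  refine edge_limit hf hT ⟨x, hx⟩ fun N => ?_
  have h2 := hC d m A b hnd hcl f f' hf hf' _ (edgeWalk f f' hf) N ⟨x, hx⟩
  rw [mul_one] at h2
  exact h2

end Pool.Agent.H80.SP
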